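import Pool.Agent.Helper8.UT.AsymLow

/-!
Asymptotic upper bound for the total variation distance.
-/

set_option autoImplicit false
set_option linter.unusedSectionVars false

namespace Pool.Agent.Helper8.UT

open Finset Matrix Filter Topology

theorem TV_high (η δ : ℝ) (hη : 0 < η) (hδ : 0 < δ) :
    ∀ᶠ n : ℕ in atTop, ∃ t : ℝ, 0 ≤ t ∧ t ≤ (1 + δ) * n / JJ + 1 ∧ TV n t ≤ η := by
  classical
  have hJ := JJ_pos
  obtain ⟨K, hK⟩ : ∃ K : ℕ, (1 : ℝ) / 2 ^ K < η / 2 := by
    obtain ⟨r, hr⟩ := exists_pow_lt_of_lt_one (show 0 < η / 2 by linarith)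
      (show (1 / 2 : ℝ) < 1 by norm_num)
    refine ⟨r, ?_⟩
    rwa [_root_.one_div_pow] at hr
  set β : ℝ := JJ * δ / (1 + δ) with hβ
  have hβ0 : 0 < β := by positivity
  set δ' : ℝ := η * β / 16 with hδ'
  have hδ'0 : 0 < δ' := by positivity
  obtain ⟨θ, hθ0, hθ1, C1, hUT⟩ := UT_bound δ' hδ'0
  set C2 : ℝ := 1 + 1 / θ * Real.exp C1 with hC2
  -- large n
  have hn_large : ∀ᶠ n : ℕ in atTop, (2 * K + 2) / β ≤ (1 + δ) * n / JJ ∧
      C2 / δ' ≤ (1 + δ) * n / JJ := by
    have hlim : Tendsto (fun n : ℕ => (1 + δ) * (n : ℝ) / JJ) atTop atTop := by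
      have : (fun n : ℕ => (1 + δ) * (n : ℝ) / JJ) = fun n : ℕ => ((1 + δ) / JJ) * (n : ℝ) := by
        funext n; ring
      rw [this]
      exact Tendsto.const_mul_atTop (by positivity) tendsto_natCast_atTop_atTop
    exact (hlim.eventually_ge_atTop _).and (hlim.eventually_ge_atTop _)
  filter_upwards [hn_large, eventually_ge_atTop 1] with n hn hn1
  set k : ℕ := ⌈(1 + δ) * (n : ℝ) / JJ⌉₊ with hk
  have hk1 : (1 + δ) * (n : ℝ) / JJ ≤ k := Nat.le_ceil _
  have hk2 : (k : ℝ) ≤ (1 + δ) * n / JJ + 1 := (Nat.ceil_lt_add_one (by positivity)).le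
  have hnpos : (1 : ℝ) ≤ n := by exact_mod_cast hn1
  have hk0 : (0 : ℝ) < k := lt_of_lt_of_le (by positivity) hk1
  have hkne : k ≠ 0 := by
    intro h
    rw [h, Nat.cast_zero] at hk0
    exact lt_irrefl _ hk0
  have hJk : (1 + δ) * n ≤ JJ * k := by
    rw [div_le_iff₀ hJ] at hk1
    linarith
  refine ⟨k, hk0.le, hk2, ?_⟩
  have hHk : JJ * k ≤ HH k := by
    have := JJ_le hkne
    rwa [le_div_iff₀ hk0] at this
  obtain ⟨⟨N, a⟩, hNa⟩ : ∃ p : ℕ × ℕ, HH k - 1 < cur p.1 p.2 k :=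
    exists_lt_of_lt_ciSup (show HH k - 1 < HH k by linarith)
  simp only at hNa
  have hcur : JJ * k - 1 < cur N a k := by linarith
  have hδn : δ * (1 : ℝ) ≤ δ * n := mul_le_mul_of_nonneg_left hnpos hδ.le
  have hexp : (1 + δ) * (n : ℝ) = n + δ * n := by ring
  have hcurpos : 0 < cur N a k := by linarith
  have haN : a + 1 ≤ N := by
    by_contra hc
    rw [cur_zero (by omega) hk0.le] at hcurpos
    exact lt_irrefl _ hcurpos
  have hna : n ≤ a + 1 := by
    have h1 := cur_le_a N a hk0.le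
    have h2 : (n : ℝ) ≤ (a : ℝ) + 1 := by linarith
    exact_mod_cast h2
  have hTV := TV_upper (q := n - 1 + K) hn1 hna haN hk0.le
  set p : ℝ := EE N k (fun A => if rk a A < n - 1 + K then (1 : ℝ) else 0) with hp
  have hp0 : 0 ≤ p := EE_nonneg hk0.le fun A => by split_ifs <;> norm_num
  have hpow : (2 : ℝ) ^ (n - 1) / 2 ^ (n - 1 + K) = 1 / 2 ^ K := by
    rw [pow_add]
    field_simp
  rw [hpow] at hTV
  have hp1 : p ≤ η / 2 := by
    set c1 : ℝ := (JJ + 2 * δ') * k with hc1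
    have hq : ((n - 1 + K : ℕ) : ℝ) ≤ n + K := by
      have : n - 1 + K ≤ n + K := by omega
      exact_mod_cast this
    have hnk : (n : ℝ) ≤ JJ * k - β * k := by
      have e1 : JJ * k - β * k = JJ * k / (1 + δ) := by
        rw [hβ]; field_simp; ring
      rw [e1, le_div_iff₀ (by positivity)]
      linarith
    have hβk : (2 * K + 2 : ℝ) ≤ β * k := by
      have := hn.1.trans hk1
      rw [div_le_iff₀ hβ0] at this
      linarith
    have hC2k : C2 ≤ δ' * k := by
      have := hn.2.trans hk1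
      rw [div_le_iff₀ hδ'0] at this
      linarith
    have hδk : 0 ≤ δ' * k := by positivity
    have hc1e : c1 = JJ * k + 2 * (δ' * k) := by rw [hc1]; ring
    have hqc : ((n - 1 + K : ℕ) : ℝ) + β * k / 2 ≤ c1 := by
      rw [hc1e]
      linarith
    have hβk0 : 0 < β * k := by positivity
    have hpt : ∀ A : MM N, (rk a A : ℝ) ≤ (c1 + (((n - 1 + K : ℕ) : ℝ) - c1) *
        (if rk a A < n - 1 + K then (1 : ℝ) else 0)) +
        (1 / θ * Real.exp (-(θ * c1))) * Real.exp (θ * (rk a A : ℝ)) := by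
      intro A
      have e0 : (1 / θ * Real.exp (-(θ * c1))) * Real.exp (θ * (rk a A : ℝ)) =
          1 / θ * Real.exp (θ * ((rk a A : ℝ) - c1)) := by
        rw [mul_assoc, ← Real.exp_add]
        congr 2
        ring
      rw [e0]
      split_ifs with h
      · have h1 : (rk a A : ℝ) ≤ ((n - 1 + K : ℕ) : ℝ) := by exact_mod_cast h.le
        have h2 : 0 < 1 / θ * Real.exp (θ * ((rk a A : ℝ) - c1)) := by positivity
        linarith
      · have h1 := Real.add_one_le_exp (θ * ((rk a A : ℝ) - c1))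
        have h2 : (rk a A : ℝ) - c1 ≤ 1 / θ * Real.exp (θ * ((rk a A : ℝ) - c1)) := by
          rw [one_div, ← div_eq_inv_mul, le_div_iff₀ hθ0]
          linarith
        linarith
    have h3 : cur N a k ≤ (c1 + (((n - 1 + K : ℕ) : ℝ) - c1) * p) +
        (1 / θ * Real.exp (-(θ * c1))) * EE N k (fun A => Real.exp (θ * (rk a A : ℝ))) := by
      have e1 : cur N a k ≤ EE N k (fun A => (c1 + (((n - 1 + K : ℕ) : ℝ) - c1) *
        (if rk a A < n - 1 + K then (1 : ℝ) else 0)) +
        (1 / θ * Real.exp (-(θ * c1))) * Real.exp (θ * (rk a A : ℝ))) :=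
        EE_mono hk0.le fun A _ => hpt A
      rw [EE_add, EE_add, EE_const hk0.le, EE_mul_const, EE_mul_const] at e1
      exact e1
    have h4 : (1 / θ * Real.exp (-(θ * c1))) * EE N k (fun A => Real.exp (θ * (rk a A : ℝ))) ≤
        1 / θ * Real.exp C1 := by
      have e1 := mul_le_mul_of_nonneg_left (hUT N a k hk0.le)
        (by positivity : 0 ≤ 1 / θ * Real.exp (-(θ * c1)))
      refine e1.trans ?_
      rw [mul_assoc, ← Real.exp_add]
      refine mul_le_mul_of_nonneg_left (Real.exp_le_exp.2 ?_) (by positivity)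
      rw [hc1]
      have e2 : 0 ≤ θ * (δ' * k) := by positivity
      have e3 : -(θ * ((JJ + 2 * δ') * k)) + (θ * (JJ + δ') * k + C1) = C1 - θ * (δ' * k) := by
        ring
      rw [e3]
      linarith
    have h5 : (c1 - ((n - 1 + K : ℕ) : ℝ)) * p ≤ 3 * (δ' * k) := by
      have e2 : cur N a k ≤ c1 - (c1 - ((n - 1 + K : ℕ) : ℝ)) * p + 1 / θ * Real.exp C1 := by
        linarith
      have e3 : C2 = 1 + 1 / θ * Real.exp C1 := hC2
      linarith
    have h6 : (β * k / 2) * p ≤ 3 * (δ' * k) := by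
      refine le_trans (mul_le_mul_of_nonneg_right ?_ hp0) h5
      linarith
    have h7 : 3 * (δ' * k) = (3 * η / 16) * (β * k) := by rw [hδ']; ring
    rw [h7] at h6
    have h8 : (β * k) * (p / 2) ≤ (β * k) * (3 * η / 16) := by linarith
    have h9 := le_of_mul_le_mul_left h8 hβk0
    linarith
  linarith

end Pool.Agent.Helper8.UT
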