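import Pool.Agent.Helper8.UT.VZ

/-!
Total variation distance: upper and lower bounds in terms of block ranks.
-/

set_option autoImplicit false
set_option linter.unusedSectionVars false

namespace Pool.Agent.Helper8.UT

open Finset Matrix

variable {N : ℕ}

open Classical in
/-- transition probability from the identity -/
noncomputable def pm (n : ℕ) (t : ℝ) (B : MM n) : ℝ := EE n t (fun A => if A = B then (1 : ℝ) else 0)

open Classical in
/-- the uniform law on unitriangular matrices -/
noncomputable def piu (n : ℕ) (B : MM n) : ℝ :=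
  if B ∈ UTS n then (1 / 2 : ℝ) ^ (n * (n - 1) / 2) else 0

/-- total variation distance -/
noncomputable def TV (n : ℕ) (t : ℝ) : ℝ := (1 / 2 : ℝ) * ∑ B : MM n, |pm n t B - piu n B|

open Classical in
/-- the unitriangular matrices as a finite set -/
noncomputable def UF (n : ℕ) : Finset (MM n) := Finset.univ.filter fun B => B ∈ UTS n

theorem mem_UF {n : ℕ} {B : MM n} : B ∈ UF n ↔ B ∈ UTS n := by
  unfold UF; simp

theorem card_UF (n : ℕ) : (UF n).card = 2 ^ (n * (n - 1) / 2) := by
  classical
  set L : Finset (Fin n → Fin n → ZMod 2) :=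
    Fintype.piFinset fun i : Fin n => Fintype.piFinset fun j : Fin n =>
      if j < i then ({0} : Finset (ZMod 2)) else if j = i then {1} else Finset.univ with hL
  have h1 : ∀ B : Fin n → Fin n → ZMod 2, B ∈ L ↔ (B : MM n) ∈ UTS n := by
    intro B
    rw [hL, Fintype.mem_piFinset]
    constructor
    · intro h
      refine ⟨fun i => ?_, fun i j hij => ?_⟩
      · have := (Fintype.mem_piFinset.1 (h i)) i
        rw [if_neg (lt_irrefl i), if_pos rfl, Finset.mem_singleton] at this
        exact this
      · have := (Fintype.mem_piFinset.1 (h i)) j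
        rw [if_pos hij, Finset.mem_singleton] at this
        exact this
    · intro h i
      rw [Fintype.mem_piFinset]
      intro j
      split_ifs with h1 h2
      · rw [Finset.mem_singleton]; exact h.2 i j h1
      · rw [Finset.mem_singleton, h2]; exact h.1 i
      · exact Finset.mem_univ _
  have h0 : (UF n).card = L.card := by
    refine Finset.card_bij' (fun B _ => B) (fun B _ => B) ?_ ?_ ?_ ?_
    · intro B hB; exact (h1 B).2 (mem_UF.1 hB)
    · intro B hB; exact mem_UF.2 ((h1 B).1 hB)
    · intro B _; rfl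
    · intro B _; rfl
  rw [h0]
  have h2 : ∀ i : Fin n, (Fintype.piFinset fun j : Fin n =>
      if j < i then ({0} : Finset (ZMod 2)) else if j = i then {1} else Finset.univ).card =
      2 ^ (n - 1 - i.val) := by
    intro i
    rw [Fintype.card_piFinset]
    have h3 : ∀ j : Fin n, (if j < i then ({0} : Finset (ZMod 2)) else
        if j = i then {1} else Finset.univ).card = if i < j then 2 else 1 := by
      intro j
      rcases lt_trichotomy j i with h | h | h
      · rw [if_pos h, if_neg (not_lt.2 h.le), Finset.card_singleton]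
      · subst h
        rw [if_neg (lt_irrefl _), if_pos rfl, if_neg (lt_irrefl _), Finset.card_singleton]
      · rw [if_neg (not_lt.2 h.le), if_neg h.ne', if_pos h, Finset.card_univ, ZMod.card]
    rw [Finset.prod_congr rfl (fun j _ => h3 j), Finset.prod_ite, Finset.prod_const_one, mul_one,
      Finset.prod_const]
    have h4 : (Finset.univ.filter fun j : Fin n => i < j) = Finset.Ioi i := by
      ext j; simp
    rw [h4, Fin.card_Ioi]
  rw [hL, Fintype.card_piFinset, Finset.prod_congr rfl (fun i _ => h2 i),
    Finset.prod_pow_eq_pow_sum]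
  congr 1
  rw [← Finset.sum_range_id, Fin.sum_univ_eq_sum_range (fun i => n - 1 - i) n]
  exact Finset.sum_range_reflect (fun i => i) n

theorem sum_piu (n : ℕ) : ∑ B : MM n, piu n B = 1 := by
  classical
  unfold piu
  rw [← Finset.sum_filter, Finset.sum_const]
  have : (Finset.univ.filter fun B : MM n => B ∈ UTS n) = UF n := by
    ext B; rw [mem_UF]; simp
  rw [this, card_UF, nsmul_eq_mul]
  push_cast
  rw [← mul_pow]
  norm_num

theorem sum_pm (n : ℕ) {t : ℝ} (ht : 0 ≤ t) : ∑ B : MM n, pm n t B = 1 := by
  classical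
  have : ∑ B : MM n, pm n t B = EE n t (fun A => ∑ B : MM n, if A = B then (1 : ℝ) else 0) := by
    unfold pm EE
    rw [Sg_sum_apply]
  rw [this]
  have h2 : (fun A : MM n => ∑ B : MM n, if A = B then (1 : ℝ) else 0) = fun _ => 1 := by
    funext A
    rw [Finset.sum_ite_eq]
    simp
  rw [h2, EE_const ht]

theorem pm_nonneg (n : ℕ) {t : ℝ} (ht : 0 ≤ t) (B : MM n) : 0 ≤ pm n t B :=
  EE_nonneg ht fun A => by split_ifs <;> norm_num

theorem pm_out (n : ℕ) {t : ℝ} (ht : 0 ≤ t) (B : MM n) (hB : B ∉ UTS n) : pm n t B = 0 := by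
  refine le_antisymm ?_ (pm_nonneg n ht B)
  have : pm n t B ≤ EE n t (fun _ => 0) := by
    refine EE_mono ht fun A hA => ?_
    rw [if_neg]
    rintro rfl
    exact hB hA
  rwa [EE_const ht] at this

theorem TV_eq (n : ℕ) {t : ℝ} (ht : 0 ≤ t) : TV n t = ∑ B : MM n, max (pm n t B - piu n B) 0 := by
  have h1 : ∀ x : ℝ, |x| = 2 * max x 0 - x := by
    intro x
    rcases le_total 0 x with h | h
    · rw [abs_of_nonneg h, max_eq_left h]; ring
    · rw [abs_of_nonpos h, max_eq_right h]; ring
  unfold TV
  rw [Finset.sum_congr rfl (fun B _ => h1 _), Finset.sum_sub_distrib, Finset.sum_sub_distrib,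
    sum_pm n ht, sum_piu, ← Finset.mul_sum]
  ring

theorem TV_eq' (n : ℕ) {t : ℝ} (ht : 0 ≤ t) : TV n t = ∑ B : MM n, max (piu n B - pm n t B) 0 := by
  have h1 : ∀ x y : ℝ, |x - y| = 2 * max (y - x) 0 - (y - x) := by
    intro x y
    rcases le_total y x with h | h
    · rw [abs_of_nonneg (by linarith), max_eq_right (by linarith)]; ring
    · rw [abs_of_nonpos (by linarith), max_eq_left (by linarith)]; ring
  unfold TV
  rw [Finset.sum_congr rfl (fun B _ => h1 _ _), Finset.sum_sub_distrib, Finset.sum_sub_distrib,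
    sum_pm n ht, sum_piu, ← Finset.mul_sum]
  ring

theorem EE_add (t : ℝ) (f g : MM N → ℝ) :
    EE N t (fun A => f A + g A) = EE N t f + EE N t g := Sg_add_apply _ t f g _

open Classical in
/-- upper bound for the total variation distance -/
theorem TV_upper {n a q : ℕ} (hn : 1 ≤ n) (hna : n ≤ a + 1) (haN : a + 1 ≤ N) {t : ℝ} (ht : 0 ≤ t) :
    TV n t ≤ EE N t (fun A => if rk a A < q then (1 : ℝ) else 0) + 2 ^ (n - 1) / 2 ^ q := by
  set s := N - a - 1 with hs
  have hsn : s + n ≤ N := by omega
  have h1 : ∀ B : MM n, max (pm n t B - piu n B) 0 ≤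
      EE N t (fun A => if mid s n hsn A = B ∧ ¬ Good s (s + n) A then (1 : ℝ) else 0) := by
    intro B
    have h0 : 0 ≤ EE N t (fun A => if mid s n hsn A = B ∧ ¬ Good s (s + n) A then (1 : ℝ) else 0) :=
      EE_nonneg ht fun A => by split_ifs <;> norm_num
    refine max_le ?_ h0
    by_cases hB : B ∈ UTS n
    · have h2 : pm n t B = EE N t (fun A => if mid s n hsn A = B then (1 : ℝ) else 0) := by
        unfold pm
        rw [← EE_mid s n hsn t]
      have h3 : EE N t (fun A => if mid s n hsn A = B then (1 : ℝ) else 0) =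
          EE N t (fun A => if mid s n hsn A = B ∧ Good s (s + n) A then (1 : ℝ) else 0) +
          EE N t (fun A => if mid s n hsn A = B ∧ ¬ Good s (s + n) A then (1 : ℝ) else 0) := by
        rw [← EE_add]
        congr 1
        funext A
        by_cases hm : mid s n hsn A = B <;> by_cases hg : Good s (s + n) A <;> simp [hm, hg]
      have h4 := V_lemma ht s n hsn B
      have h5 : piu n B = (1 / 2 : ℝ) ^ (n * (n - 1) / 2) := by
        unfold piu; rw [if_pos hB]
      rw [h2, h3, h5]
      linarith
    · rw [pm_out n ht B hB]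
      have : piu n B = 0 := by unfold piu; rw [if_neg hB]
      rw [this, sub_zero]
      exact h0
  rw [TV_eq n ht]
  refine (Finset.sum_le_sum fun B _ => h1 B).trans ?_
  have h2 : ∑ B : MM n, EE N t (fun A => if mid s n hsn A = B ∧ ¬ Good s (s + n) A then (1 : ℝ) else 0)
      = EE N t (fun A => if ¬ Good s (s + n) A then (1 : ℝ) else 0) := by
    have : ∑ B : MM n, EE N t (fun A => if mid s n hsn A = B ∧ ¬ Good s (s + n) A then (1 : ℝ) else 0)
      = EE N t (fun A => ∑ B : MM n, if mid s n hsn A = B ∧ ¬ Good s (s + n) A then (1 : ℝ) else 0) := by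
      unfold EE
      rw [Sg_sum_apply]
    rw [this]
    congr 1
    funext A
    by_cases hg : Good s (s + n) A
    · simp [hg]
    · simp [hg]
  rw [h2, ← EE_flip]
  have h3 : EE N t (fun A => if ¬ Good s (s + n) (flip A) then (1 : ℝ) else 0) ≤
      EE N t (fun A => if DepE a (n - 1) A then (1 : ℝ) else 0) := by
    refine EE_mono ht fun A _ => ?_
    by_cases hg : ¬ Good s (s + n) (flip A)
    · rw [if_pos hg, if_pos (Good_flip hn haN A hg)]
    · rw [if_neg hg]
      split_ifs <;> norm_num
  exact h3.trans (Z_lemma ht (by omega) (by omega))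

/-- left kernel of the block -/
noncomputable def LK (m : ℕ) (B : MM N) : Finset (VV N) :=
  (SI N 0 m).filter fun u => (blk m B)ᵀ *ᵥ u = 0

theorem LK_lower {m : ℕ} (hm : m ≤ N) (B : MM N) : 2 ^ m ≤ (LK m B).card * 2 ^ rk m B := by
  have h := ker_lower (blk m B)ᵀ (SI N 0 m) (SI_sub0 0 m)
  rw [card_SI (Nat.zero_le m) hm, Nat.sub_zero, Matrix.rank_transpose] at h
  exact h

theorem blkT_apply {m : ℕ} (B : MM N) {u : VV N} (hu : suppIn u 0 m) (j : Fin N) (hj : m ≤ j.val) :
    ((blk m B)ᵀ *ᵥ u) j = ∑ i, u i * B i j := by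
  unfold Matrix.mulVec dotProduct
  refine Finset.sum_congr rfl fun i _ => ?_
  have e : (fun j_1 => (blk m B)ᵀ j j_1) i = blk m B i j := rfl
  rw [e]
  unfold blk
  by_cases hi : i.val < m
  · rw [if_pos (And.intro hi hj), mul_comm]
  · rw [if_neg (fun h : i.val < m ∧ m ≤ j.val => hi h.1)]
    have : u i = 0 := by
      by_contra hc
      exact hi (hu i hc).2
    rw [this, mul_zero, zero_mul]

/-- for a fixed nonzero `u` few matrices have `u` in the left kernel -/
theorem LK_count {n m : ℕ} (hm : m ≤ n) (u : VV n) (hu : suppIn u 0 m) (hu0 : u ≠ 0) :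
    ((UF n).filter fun B => (blk m B)ᵀ *ᵥ u = 0).card * 2 ^ (n - m) ≤ (UF n).card := by
  obtain ⟨i0, hi0⟩ : ∃ i, u i ≠ 0 := by
    by_contra hc
    push Not at hc
    exact hu0 (funext hc)
  have him : i0.val < m := (hu i0 hi0).2
  have hu1 : u i0 = 1 := zmod2_ne _ hi0
  rw [← card_SI hm le_rfl, ← Finset.card_product]
  refine Finset.card_le_card_of_injOn
    (fun p : MM n × VV n => p.1 + Matrix.of (fun i j => if i = i0 then p.2 j else 0)) ?_ ?_
  · rintro ⟨B, y⟩ hp
    have hp' := Finset.mem_product.1 hp
    have h1 := Finset.mem_filter.1 hp'.1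
    have h2 : suppIn y m n := mem_SI.1 hp'.2
    have hB : B ∈ UTS n := mem_UF.1 h1.1
    refine mem_UF.2 ⟨fun i => ?_, fun i j hij => ?_⟩
    · change B i i + (if i = i0 then y i else 0) = 1
      rw [hB.1 i]
      by_cases h : i = i0
      · rw [if_pos h]
        have : y i = 0 := by
          by_contra hc
          have := (h2 i hc).1
          rw [h] at this
          omega
        rw [this, add_zero]
      · rw [if_neg h, add_zero]
    · change B i j + (if i = i0 then y j else 0) = 0
      rw [hB.2 i j hij]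
      by_cases h : i = i0
      · rw [if_pos h]
        have : y j = 0 := by
          by_contra hc
          have := (h2 j hc).1
          rw [h] at hij
          have := Fin.lt_def.1 hij
          omega
        rw [this, add_zero]
      · rw [if_neg h, add_zero]
  · rintro ⟨B, y⟩ hp ⟨B', y'⟩ hp' heq
    have hq := Finset.mem_product.1 hp
    have hq' := Finset.mem_product.1 hp'
    have h1 : B ∈ UF n ∧ (blk m B)ᵀ *ᵥ u = 0 := Finset.mem_filter.1 hq.1
    have h1' : B' ∈ UF n ∧ (blk m B')ᵀ *ᵥ u = 0 := Finset.mem_filter.1 hq'.1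
    have h2 : suppIn y m n := mem_SI.1 hq.2
    have h2' : suppIn y' m n := mem_SI.1 hq'.2
    have hent : ∀ i j, B i j + (if i = i0 then y j else 0) = B' i j + (if i = i0 then y' j else 0) :=
      fun i j => congrFun (congrFun heq i) j
    have hy : y = y' := by
      funext j
      by_cases hj : m ≤ j.val
      · have e1 := congrFun h1.2 j
        have e1' := congrFun h1'.2 j
        rw [blkT_apply B hu j hj] at e1
        rw [blkT_apply B' hu j hj] at e1'
        have e2 : ∑ i, u i * (B i j + (if i = i0 then y j else 0)) =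
            ∑ i, u i * (B' i j + (if i = i0 then y' j else 0)) :=
          Finset.sum_congr rfl fun i _ => by rw [hent i j]
        simp only [mul_add, Finset.sum_add_distrib] at e2
        rw [e1, e1'] at e2
        simp only [mul_ite, mul_zero, Finset.sum_ite_eq', Finset.mem_univ, if_true, hu1, one_mul] at e2
        exact add_left_cancel e2
      · have e1 : y j = 0 := by
          by_contra hc
          exact hj (h2 j hc).1
        have e2 : y' j = 0 := by
          by_contra hc
          exact hj (h2' j hc).1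
        rw [e1, e2]
    subst hy
    have hB : B = B' := by
      funext i j
      exact add_right_cancel (hent i j)
    rw [hB]

theorem LK_sum {n m : ℕ} (hm : 2 * m ≤ n) : ∑ B ∈ UF n, (LK m B).card ≤ 2 * (UF n).card := by
  have h1 : ∑ B ∈ UF n, (LK m B).card =
      ∑ u ∈ SI n 0 m, ((UF n).filter fun B => (blk m B)ᵀ *ᵥ u = 0).card := by
    unfold LK
    simp only [Finset.card_filter]
    rw [Finset.sum_comm]
  rw [h1]
  have h2 : ∀ u ∈ SI n 0 m, ((UF n).filter fun B => (blk m B)ᵀ *ᵥ u = 0).card * 2 ^ m ≤
      (if u = 0 then (UF n).card * 2 ^ m else 0) + (UF n).card := by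
    intro u hu
    by_cases h : u = 0
    · rw [if_pos h]
      have := Finset.card_filter_le (UF n) (fun B => (blk m B)ᵀ *ᵥ u = 0)
      have := Nat.mul_le_mul_right (2 ^ m) this
      omega
    · rw [if_neg h, zero_add]
      refine le_trans ?_ (LK_count (show m ≤ n by omega) u (mem_SI.1 hu) h)
      exact Nat.mul_le_mul le_rfl (Nat.pow_le_pow_right (by norm_num) (by omega))
  have h3 := Finset.sum_le_sum h2
  rw [← Finset.sum_mul, Finset.sum_add_distrib, Finset.sum_const, card_SI (Nat.zero_le m) (by omega),
    Nat.sub_zero, Finset.sum_ite_eq', if_pos (SI_sub0 0 m).1, smul_eq_mul] at h3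
  have h4 : (∑ u ∈ SI n 0 m, ((UF n).filter fun B => (blk m B)ᵀ *ᵥ u = 0).card) * 2 ^ m ≤
      (2 * (UF n).card) * 2 ^ m := by
    refine h3.trans (le_of_eq ?_)
    ring
  exact Nat.le_of_mul_le_mul_right h4 (by positivity)

theorem rk_small_count {n m r : ℕ} (hm : 2 * m ≤ n) (hr : r ≤ m) :
    ((UF n).filter fun B => rk m B < m - r).card * 2 ^ r ≤ (UF n).card := by
  have h1 : ((UF n).filter fun B => rk m B < m - r).card * 2 ^ (r + 1) ≤
      ∑ B ∈ UF n, (LK m B).card := by
    refine le_trans ?_ (Finset.sum_le_sum_of_subset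
      (Finset.filter_subset (fun B => rk m B < m - r) (UF n)))
    rw [← smul_eq_mul, ← Finset.sum_const]
    refine Finset.sum_le_sum fun B hB => ?_
    have hB' := (Finset.mem_filter.1 hB).2
    have h2 := LK_lower (show m ≤ n by omega) B
    have h3 : 2 ^ (r + 1) * 2 ^ rk m B ≤ (LK m B).card * 2 ^ rk m B := by
      refine le_trans ?_ h2
      rw [← pow_add]
      exact Nat.pow_le_pow_right (by norm_num) (by omega)
    exact Nat.le_of_mul_le_mul_right h3 (by positivity)
  have h4 := h1.trans (LK_sum hm)
  rw [pow_succ] at h4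
  have h5 : ((UF n).filter fun B => rk m B < m - r).card * 2 ^ r * 2 ≤ (UF n).card * 2 := by
    nlinarith
  exact Nat.le_of_mul_le_mul_right h5 (by norm_num)

open Classical in
/-- lower bound for the total variation distance -/
theorem TV_lower {n m r : ℕ} (hm : 2 * m ≤ n) (hr : r ≤ m) {t : ℝ} (ht : 0 ≤ t) :
    1 - 1 / 2 ^ r - EE n t (fun A => if m - r ≤ rk m A then (1 : ℝ) else 0) ≤ TV n t := by
  rw [TV_eq' n ht]
  have h1 : ∑ B ∈ Finset.univ.filter (fun B : MM n => m - r ≤ rk m B), (piu n B - pm n t B) ≤
      ∑ B : MM n, max (piu n B - pm n t B) 0 := by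
    refine (Finset.sum_le_sum fun B _ => le_max_left _ 0).trans ?_
    exact Finset.sum_le_sum_of_subset_of_nonneg (Finset.subset_univ _) fun B _ _ => le_max_right _ _
  refine le_trans ?_ h1
  rw [Finset.sum_sub_distrib]
  have h2 : ∑ B ∈ Finset.univ.filter (fun B : MM n => m - r ≤ rk m B), pm n t B =
      EE n t (fun A => if m - r ≤ rk m A then (1 : ℝ) else 0) := by
    have : ∑ B ∈ Finset.univ.filter (fun B : MM n => m - r ≤ rk m B), pm n t B =
        EE n t (fun A => ∑ B ∈ Finset.univ.filter (fun B : MM n => m - r ≤ rk m B),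
          if A = B then (1 : ℝ) else 0) := by
      unfold pm EE
      rw [Sg_sum_apply]
    rw [this]
    congr 1
    funext A
    rw [Finset.sum_ite_eq]
    simp
  rw [h2]
  have h3 : 1 - 1 / 2 ^ r ≤ ∑ B ∈ Finset.univ.filter (fun B : MM n => m - r ≤ rk m B), piu n B := by
    have e1 := Finset.sum_filter_add_sum_filter_not (Finset.univ : Finset (MM n))
      (fun B : MM n => m - r ≤ rk m B) (fun B => piu n B)
    rw [sum_piu] at e1
    have e2 : ∑ B ∈ Finset.univ.filter (fun B : MM n => ¬ m - r ≤ rk m B), piu n B ≤ 1 / 2 ^ r := by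
      have e3 : ∑ B ∈ Finset.univ.filter (fun B : MM n => ¬ m - r ≤ rk m B), piu n B =
          ((UF n).filter fun B => rk m B < m - r).card * (1 / 2 : ℝ) ^ (n * (n - 1) / 2) := by
        rw [← nsmul_eq_mul, ← Finset.sum_const, Finset.sum_filter, Finset.sum_filter]
        unfold UF
        rw [Finset.sum_filter]
        refine Finset.sum_congr rfl fun B _ => ?_
        unfold piu
        by_cases h4 : B ∈ UTS n <;> by_cases h5 : m - r ≤ rk m B
        · simp [h4, h5]
        · simp [h4, h5, not_le.1 h5]
        · simp [h4]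
        · simp [h4]
      have e4 := rk_small_count hm hr
      rw [card_UF] at e4
      have e5 : (((UF n).filter fun B => rk m B < m - r).card : ℝ) * 2 ^ r ≤
          2 ^ (n * (n - 1) / 2) := by exact_mod_cast e4
      rw [e3, one_div, inv_pow, ← div_eq_mul_inv, div_le_div_iff₀ (by positivity) (by positivity),
        one_mul]
      exact e5
    linarith
  linarith

end Pool.Agent.Helper8.UT
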