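import Pool.Agent.Helper8.UT.Current
import Pool.Agent.Helper8.UT.Mix

/-!
Asymptotic lower bound for the total variation distance.
-/

set_option autoImplicit false
set_option linter.unusedSectionVars false

namespace Pool.Agent.Helper8.UT

open Finset Matrix Filter Topology

theorem rk_le (N a : ℕ) (A : MM N) : rk a A ≤ a := by
  classical
  unfold rk
  rw [blk_eq, Matrix.mul_assoc]
  refine (Matrix.rank_mul_le_left _ _).trans ?_
  rw [Matrix.rank_diagonal, Fintype.card_subtype]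
  have h1 : (Finset.univ.filter fun i : Fin N => (if i.val < a then (1 : ZMod 2) else 0) ≠ 0).card ≤
      (Finset.range a).card := by
    refine Finset.card_le_card_of_injOn (fun i => i.val) ?_ ?_
    · intro i hi
      have hi' := (Finset.mem_filter.1 hi).2
      rw [Finset.coe_range, Set.mem_Iio]
      by_contra hc
      apply hi'
      rw [if_neg hc]
    · intro x _ y _ hxy
      exact Fin.ext hxy
  rwa [Finset.card_range] at h1

theorem rk_zero_of_le {N a : ℕ} (h : N ≤ a) (A : MM N) : rk a A = 0 := by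
  unfold rk
  have : blk a A = 0 := by
    funext i j
    unfold blk
    rw [if_neg]
    · rfl
    · rintro ⟨_, h2⟩
      have := j.isLt
      omega
  rw [this, Matrix.rank_zero]

theorem cur_le_a (N a : ℕ) {t : ℝ} (ht : 0 ≤ t) : cur N a t ≤ a :=
  EE_le_one ht fun A => by exact_mod_cast rk_le N a A

theorem cur_zero {N a : ℕ} (h : N ≤ a) {t : ℝ} (ht : 0 ≤ t) : cur N a t = 0 := by
  unfold cur
  have : (fun A : MM N => (rk a A : ℝ)) = fun _ => 0 := by
    funext A
    rw [rk_zero_of_le h A, Nat.cast_zero]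
  rw [this, EE_const ht]

theorem EE_mul_const {N : ℕ} (t c : ℝ) (f : MM N → ℝ) :
    EE N t (fun A => c * f A) = c * EE N t f := Sg_mul_apply _ t c f _

open Classical in
/-- Chernoff bound -/
theorem chernoff {N a ℓ : ℕ} {t θ : ℝ} (ht : 0 ≤ t) (hθ : 0 ≤ θ) :
    EE N t (fun A => if ℓ ≤ rk a A then (1 : ℝ) else 0) ≤
      Real.exp (-(θ * ℓ)) * EE N t (fun A => Real.exp (θ * (rk a A : ℝ))) := by
  rw [← EE_mul_const]
  refine EE_mono ht fun A _ => ?_
  split_ifs with h
  · rw [← Real.exp_add]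
    refine Real.one_le_exp ?_
    have : (ℓ : ℝ) ≤ rk a A := by exact_mod_cast h
    have := mul_le_mul_of_nonneg_left this hθ
    linarith
  · positivity

theorem TV_low (η δ : ℝ) (hη : 0 < η) (hδ : 0 < δ) :
    ∀ᶠ n : ℕ in atTop, ∀ t : ℝ, 0 ≤ t → t ≤ (1 - δ) * n / (2 * JJ) → 1 - η < TV n t := by
  have hJ := JJ_pos
  obtain ⟨r, hr⟩ : ∃ r : ℕ, (1 : ℝ) / 2 ^ r < η / 2 := by
    obtain ⟨r, hr⟩ := exists_pow_lt_of_lt_one (show 0 < η / 2 by linarith)
      (show (1 / 2 : ℝ) < 1 by norm_num)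
    refine ⟨r, ?_⟩
    rwa [_root_.one_div_pow] at hr
  obtain ⟨θ, hθ0, hθ1, C1, hUT⟩ := UT_bound (δ * JJ / 2) (by positivity)
  have hlim : Tendsto (fun n : ℕ => Real.exp (-(θ * δ / 4) * n + (θ * (1 / 2 + r) + C1))) atTop
      (𝓝 0) := by
    refine Real.tendsto_exp_atBot.comp ?_
    refine tendsto_atBot_add_const_right _ _ ?_
    refine Tendsto.const_mul_atTop_of_neg (by nlinarith) tendsto_natCast_atTop_atTop
  filter_upwards [hlim.eventually (gt_mem_nhds (show (0 : ℝ) < η / 2 by linarith)),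
    eventually_ge_atTop (2 * r)] with n hn1 hn2
  intro t ht0 ht1
  have h1 := TV_lower (n := n) (m := n / 2) (r := r) (by omega) (by omega) ht0
  have h2 : EE n t (fun A => if n / 2 - r ≤ rk (n / 2) A then (1 : ℝ) else 0) ≤
      Real.exp (-(θ * δ / 4) * n + (θ * (1 / 2 + r) + C1)) := by
    refine (chernoff ht0 hθ0.le).trans ?_
    refine (mul_le_mul_of_nonneg_left (hUT n (n / 2) t ht0) (Real.exp_pos _).le).trans ?_
    rw [← Real.exp_add]
    refine Real.exp_le_exp.2 ?_
    have e1 : ((n / 2 - r : ℕ) : ℝ) ≥ (n : ℝ) / 2 - 1 / 2 - r := by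
      have : n ≤ 2 * (n / 2 - r) + 1 + 2 * r := by omega
      have : (n : ℝ) ≤ 2 * ((n / 2 - r : ℕ) : ℝ) + 1 + 2 * r := by exact_mod_cast this
      linarith
    have e2 : (JJ + δ * JJ / 2) * t ≤ (1 - δ / 2) * n / 2 := by
      have e3 : (JJ + δ * JJ / 2) * t ≤ (JJ + δ * JJ / 2) * ((1 - δ) * n / (2 * JJ)) :=
        mul_le_mul_of_nonneg_left ht1 (by positivity)
      have e4 : (JJ + δ * JJ / 2) * ((1 - δ) * n / (2 * JJ)) = (1 + δ / 2) * (1 - δ) * n / 2 := by
        field_simp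
      rw [e4] at e3
      have e5 : (1 + δ / 2) * (1 - δ) ≤ 1 - δ / 2 := by nlinarith
      have e6 : (1 + δ / 2) * (1 - δ) * (n : ℝ) ≤ (1 - δ / 2) * n :=
        mul_le_mul_of_nonneg_right e5 (Nat.cast_nonneg n)
      linarith
    have e7 := mul_le_mul_of_nonneg_left e2 hθ0.le
    have e8 := mul_le_mul_of_nonneg_left e1 hθ0.le
    have e9 : θ * (JJ + δ * JJ / 2) * t = θ * ((JJ + δ * JJ / 2) * t) := by ring
    have e10 : θ * ((n : ℝ) / 2 - 1 / 2 - r) = θ * n / 2 - θ * (1 / 2 + r) := by ring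
    have e11 : θ * ((1 - δ / 2) * n / 2) = θ * n / 2 - θ * δ / 4 * n := by ring
    have e12 : -(θ * δ / 4) * (n : ℝ) = -(θ * δ / 4 * n) := by ring
    rw [e9, e12]
    rw [e10] at e8
    rw [e11] at e7
    linarith
  linarith

end Pool.Agent.Helper8.UT
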