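import Pool.Agent.Helper8.UT.Mix

/-!
Link with the frozen definitions: the kernel `K`, its Poissonised powers, and the distance `d`.
-/

set_option autoImplicit false
set_option linter.unusedSectionVars false

namespace Pool.Agent.Helper8.UT

open Finset Matrix Filter Topology

/-- the step written with `updateRow` -/
theorem stl_update {n : ℕ} (i j : Fin n) (h : j.val = i.val + 1) (A : MM n) :
    stl i A = A.updateRow i (A i + A j) := by
  funext a b
  rw [stl_apply, Matrix.updateRow_apply]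
  have : rowN A (i.val + 1) = A j := by
    rw [← h, rowN_fin]
  rw [this]
  by_cases ha : a = i
  · subst ha; simp
  · simp [ha]

theorem stl_last {n : ℕ} (i : Fin n) (h : ¬ i.val + 1 < n) (A : MM n) : stl i A = A := by
  funext a b
  rw [stl_apply]
  have : rowN A (i.val + 1) = 0 := by
    funext c
    simp [rowN, h]
  rw [this]
  simp

/-- the frozen kernel acts as the shifted generator -/
theorem K_mulVec {n : ℕ} (hn : 2 ≤ n) (K : Matrix (MM n) (MM n) ℝ)
    (hK : ∀ A B : MM n, K A B = (1 / 2 : ℝ) * (if B = A then 1 else 0)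
      + (1 / (2 * ((n : ℝ) - 1))) * ∑ i : Fin n, ∑ j : Fin n,
        (if j.val = i.val + 1 ∧ B = A.updateRow i (A i + A j) then (1 : ℝ) else 0))
    (f : MM n → ℝ) :
    ((n : ℝ) - 1) • (K *ᵥ f) = gen (stl (N := n)) f + ((n : ℝ) - 1) • f := by
  have hn' : (2 : ℝ) ≤ n := by exact_mod_cast hn
  have hn1 : (n : ℝ) - 1 ≠ 0 := by linarith
  funext A
  rw [Pi.smul_apply, Pi.add_apply, Pi.smul_apply, smul_eq_mul, smul_eq_mul]
  unfold Matrix.mulVec dotProduct
  simp only [hK]
  have h1 : ∑ B : MM n, ((1 / 2 : ℝ) * (if B = A then 1 else 0)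
      + (1 / (2 * ((n : ℝ) - 1))) * ∑ i : Fin n, ∑ j : Fin n,
        (if j.val = i.val + 1 ∧ B = A.updateRow i (A i + A j) then (1 : ℝ) else 0)) * f B =
      (1 / 2 : ℝ) * f A + (1 / (2 * ((n : ℝ) - 1))) * ∑ i : Fin n, ∑ j : Fin n,
        (if j.val = i.val + 1 then f (A.updateRow i (A i + A j)) else 0) := by
    simp only [add_mul, Finset.sum_add_distrib]
    congr 1
    · simp [mul_assoc]
    · simp only [mul_assoc, Finset.sum_mul]
      rw [← Finset.mul_sum, Finset.sum_comm]
      congr 1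
      refine Finset.sum_congr rfl fun i _ => ?_
      rw [Finset.sum_comm]
      refine Finset.sum_congr rfl fun j _ => ?_
      by_cases hj : j.val = i.val + 1
      · simp [hj]
      · simp [hj]
  rw [h1]
  have h2 : ∀ i : Fin n, ∑ j : Fin n, (if j.val = i.val + 1 then f (A.updateRow i (A i + A j)) else 0) =
      if i.val + 1 < n then f (stl i A) else 0 := by
    intro i
    split_ifs with h
    · rw [Finset.sum_eq_single (⟨i.val + 1, h⟩ : Fin n)]
      · rw [if_pos rfl, stl_update i ⟨i.val + 1, h⟩ rfl A]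
      · intro b _ hb
        rw [if_neg]
        intro hb'
        exact hb (Fin.ext hb')
      · intro hb; exact absurd (Finset.mem_univ _) hb
    · refine Finset.sum_eq_zero fun j _ => ?_
      rw [if_neg]
      have := j.isLt
      omega
  simp only [h2]
  unfold gen
  have h3 : ∑ i : Fin n, (f (stl i A) - f A) =
      ∑ i : Fin n, (if i.val + 1 < n then f (stl i A) else 0) - ((n : ℝ) - 1) * f A := by
    have h4 : ∀ i : Fin n, f (stl i A) - f A =
        (if i.val + 1 < n then f (stl i A) else 0) - (if i.val + 1 < n then f A else 0) := by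
      intro i
      split_ifs with h
      · rfl
      · rw [stl_last i h]; ring
    rw [Finset.sum_congr rfl (fun i _ => h4 i), Finset.sum_sub_distrib]
    congr 1
    rw [← Finset.sum_filter, Finset.sum_const, nsmul_eq_mul]
    congr 1
    have h5 : (Finset.univ.filter fun i : Fin n => i.val + 1 < n) =
        Finset.univ.erase (⟨n - 1, by omega⟩ : Fin n) := by
      ext i
      simp only [Finset.mem_filter, Finset.mem_univ, true_and, Finset.mem_erase, and_true]
      rw [ne_eq, Fin.ext_iff]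
      simp only
      have := i.isLt
      omega
    rw [h5, Finset.card_erase_of_mem (Finset.mem_univ _), Finset.card_univ, Fintype.card_fin,
      Nat.cast_sub (by omega), Nat.cast_one]
  rw [h3]
  field_simp
  ring

theorem K_pow {n : ℕ} (hn : 2 ≤ n) (K : Matrix (MM n) (MM n) ℝ)
    (hK : ∀ A B : MM n, K A B = (1 / 2 : ℝ) * (if B = A then 1 else 0)
      + (1 / (2 * ((n : ℝ) - 1))) * ∑ i : Fin n, ∑ j : Fin n,
        (if j.val = i.val + 1 ∧ B = A.updateRow i (A i + A j) then (1 : ℝ) else 0))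
    (f : MM n → ℝ) (k : ℕ) :
    ((n : ℝ) - 1) ^ k • ((K ^ k) *ᵥ f) =
      (fun g : MM n → ℝ => gen (stl (N := n)) g + ((n : ℝ) - 1) • g)^[k] f := by
  induction k with
  | zero =>
    rw [pow_zero, pow_zero, Matrix.one_mulVec, one_smul]
    rfl
  | succ k ih =>
    rw [Function.iterate_succ_apply', ← ih, ← K_mulVec hn K hK, pow_succ', pow_succ', mul_smul]
    congr 1
    rw [Matrix.mulVec_smul, Matrix.mulVec_mulVec]

/-- the frozen series -/
theorem frozen_series {n : ℕ} (hn : 2 ≤ n) (K : Matrix (MM n) (MM n) ℝ)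
    (hK : ∀ A B : MM n, K A B = (1 / 2 : ℝ) * (if B = A then 1 else 0)
      + (1 / (2 * ((n : ℝ) - 1))) * ∑ i : Fin n, ∑ j : Fin n,
        (if j.val = i.val + 1 ∧ B = A.updateRow i (A i + A j) then (1 : ℝ) else 0))
    (t : ℝ) (B : MM n) :
    ∑' k : ℕ, Real.exp (-(((n : ℝ) - 1) * t)) * (((n : ℝ) - 1) * t) ^ k
      / (k.factorial : ℝ) * (K ^ k) 1 B = pm n t B := by
  classical
  have h1 := Sg_series (stl (N := n)) ((n : ℝ) - 1) t (fun A => if A = B then (1 : ℝ) else 0) 1
  rw [show pm n t B = Sg (stl (N := n)) t (fun A => if A = B then (1 : ℝ) else 0) 1 from rfl,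
    ← h1.tsum_eq]
  refine tsum_congr fun k => ?_
  rw [← K_pow hn K hK]
  have h2 : (((n : ℝ) - 1) ^ k • ((K ^ k) *ᵥ fun A => if A = B then (1 : ℝ) else 0)) 1 =
      ((n : ℝ) - 1) ^ k * (K ^ k) 1 B := by
    rw [Pi.smul_apply, smul_eq_mul]
    congr 1
    unfold Matrix.mulVec dotProduct
    rw [Finset.sum_eq_single B]
    · simp
    · intro C _ hC; simp [hC]
    · intro h; exact absurd (Finset.mem_univ _) h
  rw [h2, mul_pow]
  ring

theorem frozen_d {n : ℕ} (hn : 2 ≤ n) (K : Matrix (MM n) (MM n) ℝ)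
    (hK : ∀ A B : MM n, K A B = (1 / 2 : ℝ) * (if B = A then 1 else 0)
      + (1 / (2 * ((n : ℝ) - 1))) * ∑ i : Fin n, ∑ j : Fin n,
        (if j.val = i.val + 1 ∧ B = A.updateRow i (A i + A j) then (1 : ℝ) else 0))
    (t : ℝ) :
    (1 / 2 : ℝ) * ∑ B : MM n,
      |(∑' k : ℕ, Real.exp (-(((n : ℝ) - 1) * t)) * (((n : ℝ) - 1) * t) ^ k
          / (k.factorial : ℝ) * (K ^ k) 1 B)
        - (if (∀ a : Fin n, B a a = 1) ∧ (∀ a b : Fin n, b < a → B a b = 0)
            then (1 / 2 : ℝ) ^ (n * (n - 1) / 2) else 0)| = TV n t := by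
  unfold TV
  congr 1
  refine Finset.sum_congr rfl fun B _ => ?_
  rw [frozen_series hn K hK]
  congr 2
  unfold piu
  by_cases h : B ∈ UTS n
  · rw [if_pos h]
    have h' : (∀ a : Fin n, B a a = 1) ∧ (∀ a b : Fin n, b < a → B a b = 0) := h
    rw [if_pos h']
  · rw [if_neg h]
    have h' : ¬ ((∀ a : Fin n, B a a = 1) ∧ (∀ a b : Fin n, b < a → B a b = 0)) := h
    rw [if_neg h']

end Pool.Agent.Helper8.UT
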