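import Pool.Agent.Helper8.UT.Lin

/-!
The augmented walk: the matrix together with, for every row `r`, the set of vectors that were
orthogonal to row `r+1` at all rings of the clock of row `r`.
-/

set_option autoImplicit false
set_option linter.unusedSectionVars false

namespace Pool.Agent.Helper8.UT

open Finset Matrix

variable {N : ℕ}

/-- augmented states -/
abbrev AS (N : ℕ) := MM N × (Fin N → Finset (VV N))

/-- augmented step -/
def sta (l : Fin N × Bool) (s : AS N) : AS N :=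
  (if l.2 = true then stl l.1 s.1 else s.1,
   Function.update s.2 l.1 ((s.2 l.1).filter fun ψ => rowN s.1 (l.1.val + 1) ⬝ᵥ ψ = 0))

/-- initial state -/
def st0 (N : ℕ) : AS N := (1, fun _ => Finset.univ)

/-- expectation for the augmented walk -/
noncomputable def EA (N : ℕ) (t : ℝ) (F : AS N → ℝ) : ℝ := Sg (sta (N := N)) t F (st0 N)

theorem gen_sta (F : AS N → ℝ) (s : AS N) : gen (sta (N := N)) F s =
    (1 / 2 : ℝ) * ∑ i : Fin N, ((F (sta (i, true) s) - F s) + (F (sta (i, false) s) - F s)) := by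
  unfold gen
  rw [Fintype.sum_prod_type]
  congr 1
  refine Finset.sum_congr rfl fun i _ => ?_
  rw [Fintype.sum_bool]

theorem EA_proj (t : ℝ) (f : MM N → ℝ) : EA N t (fun s => f s.1) = EE N t f := by
  unfold EA EE
  rw [Sg_intertwine (stX := sta (N := N)) (stY := stl (N := N)) (fun s => s.1)
    (Clo_univ _) (fun g s _ => ?_) f t (st0 N) trivial]
  · rfl
  · rw [gen_sta]
    unfold gen
    congr 1
    refine Finset.sum_congr rfl fun i _ => ?_
    have h1 : (sta (i, true) s).1 = stl i s.1 := rfl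
    have h2 : (sta (i, false) s).1 = s.1 := rfl
    rw [h1, h2, sub_self, add_zero]

/-- two states agree on the rows after `r` and on the sets from `r` on -/
def Rel (r : ℕ) (s s' : AS N) : Prop :=
  (∀ m, r < m → rowN s.1 m = rowN s'.1 m) ∧ (∀ j : Fin N, r ≤ j.val → s.2 j = s'.2 j)

theorem Rel.mono {r r' : ℕ} (h : r ≤ r') {s s' : AS N} (hs : Rel r s s') : Rel r' s s' :=
  ⟨fun m hm => hs.1 m (lt_of_le_of_lt h hm), fun j hj => hs.2 j (h.trans hj)⟩

theorem rel_step {r : ℕ} {s s' : AS N} (h : Rel r s s') (l : Fin N × Bool) :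
    Rel r (sta l s) (sta l s') := by
  obtain ⟨i, c⟩ := l
  refine ⟨fun m hm => ?_, fun j hj => ?_⟩
  · unfold sta
    cases c
    · exact h.1 m hm
    · change rowN (stl i s.1) m = rowN (stl i s'.1) m
      rw [rowN_stl, rowN_stl, h.1 m hm]
      congr 1
      by_cases hmi : m = i.val
      · rw [if_pos hmi, if_pos hmi, h.1 (i.val + 1) (by omega)]
      · rw [if_neg hmi, if_neg hmi]
  · unfold sta
    by_cases hji : j = i
    · subst hji
      simp only [Function.update_self]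
      rw [h.2 j hj, h.1 (j.val + 1) (by omega)]
    · simp only [Function.update_of_ne hji]
      exact h.2 j hj

theorem rel_self (r : Fin N) (s : AS N) : Rel r.val (sta (r, true) s) (sta (r, false) s) := by
  refine ⟨fun m hm => ?_, fun j hj => rfl⟩
  change rowN (stl r s.1) m = rowN s.1 m
  exact rowN_stl_of_ne r s.1 (by omega)

/-- functions depending only on the rows after `r` and on the sets from `r` on -/
def Dep (r : ℕ) (F : AS N → ℝ) : Prop := ∀ s s', Rel r s s' → F s = F s'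

/-- twisted generator -/
noncomputable def TW (r : Fin N) (ψ : VV N) (F : AS N → ℝ) (s : AS N) : ℝ :=
  (1 / 2 : ℝ) * ∑ i : Fin N, (if i = r then
    ((if rowN s.1 (r.val + 1) ⬝ᵥ ψ = 0 then 2 * F (sta (r, false) s) else 0) - 2 * F s)
    else ((F (sta (i, true) s) - F s) + (F (sta (i, false) s) - F s)))

theorem TW_dep {r : Fin N} {ψ : VV N} {F : AS N → ℝ} (hF : Dep r.val F) :
    Dep r.val (TW r ψ F) := by
  intro s s' h
  unfold TW
  congr 1
  refine Finset.sum_congr rfl fun i _ => ?_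
  rw [hF _ _ (rel_step h (i, true)), hF _ _ (rel_step h (i, false)), hF _ _ h,
    hF _ _ (rel_step h (r, false)), h.1 (r.val + 1) (Nat.lt_succ_self _)]

theorem gen_mult {r : Fin N} {ψ : VV N} {u : AS N → ℝ}
    (h1 : ∀ (i : Fin N) (c : Bool) (s : AS N), i ≠ r → u (sta (i, c) s) = u s)
    (h2 : ∀ s : AS N, u (sta (r, true) s) + u (sta (r, false) s) =
      if rowN s.1 (r.val + 1) ⬝ᵥ ψ = 0 then 2 * u s else 0)
    {F : AS N → ℝ} (hF : Dep r.val F) :
    gen (sta (N := N)) (fun s => u s * F s) = fun s => u s * TW r ψ F s := by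
  funext s
  rw [gen_sta]
  unfold TW
  rw [← mul_assoc, mul_comm (u s) (1 / 2 : ℝ), mul_assoc]
  congr 1
  rw [Finset.mul_sum]
  refine Finset.sum_congr rfl fun i _ => ?_
  by_cases hi : i = r
  · subst hi
    rw [if_pos rfl, hF _ _ (rel_self i s)]
    have e : u (sta (i, true) s) * F (sta (i, false) s) - u s * F s +
        (u (sta (i, false) s) * F (sta (i, false) s) - u s * F s) =
        (u (sta (i, true) s) + u (sta (i, false) s)) * F (sta (i, false) s) - 2 * (u s * F s) := by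
      ring
    rw [e, h2 s]
    split_ifs <;> ring
  · rw [if_neg hi, h1 i true s hi, h1 i false s hi]
    ring

theorem iter_mult {r : Fin N} {ψ : VV N} {u : AS N → ℝ}
    (h1 : ∀ (i : Fin N) (c : Bool) (s : AS N), i ≠ r → u (sta (i, c) s) = u s)
    (h2 : ∀ s : AS N, u (sta (r, true) s) + u (sta (r, false) s) =
      if rowN s.1 (r.val + 1) ⬝ᵥ ψ = 0 then 2 * u s else 0) (k : ℕ) :
    ∀ {F : AS N → ℝ}, Dep r.val F →
    (gen (sta (N := N)))^[k] (fun s => u s * F s) = fun s => u s * (TW r ψ)^[k] F s := by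
  induction k with
  | zero => intro F _; rfl
  | succ k ih =>
    intro F hF
    rw [Function.iterate_succ_apply, gen_mult h1 h2 hF, ih (TW_dep hF)]
    rfl

theorem chi_step1 (r : Fin N) (ψ : VV N) (i : Fin N) (c : Bool) (s : AS N) (hi : i ≠ r) :
    chi (rowN (sta (i, c) s).1 r.val ⬝ᵥ ψ) = chi (rowN s.1 r.val ⬝ᵥ ψ) := by
  cases c
  · rfl
  · change chi (rowN (stl i s.1) r.val ⬝ᵥ ψ) = chi (rowN s.1 r.val ⬝ᵥ ψ)
    rw [rowN_stl_of_ne]
    exact fun h => hi (Fin.ext h.symm)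

theorem chi_step2 (r : Fin N) (ψ : VV N) (s : AS N) :
    chi (rowN (sta (r, true) s).1 r.val ⬝ᵥ ψ) + chi (rowN (sta (r, false) s).1 r.val ⬝ᵥ ψ) =
      if rowN s.1 (r.val + 1) ⬝ᵥ ψ = 0 then 2 * chi (rowN s.1 r.val ⬝ᵥ ψ) else 0 := by
  change chi (rowN (stl r s.1) r.val ⬝ᵥ ψ) + chi (rowN s.1 r.val ⬝ᵥ ψ) = _
  rw [rowN_stl_self, add_dotProduct, chi_add]
  split_ifs with h
  · rw [h, chi_zero]; ring
  · rw [zmod2_ne _ h]
    have : chi 1 = -1 := by simp [chi]
    rw [this]; ring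

theorem ind_step1 (r : Fin N) (ψ : VV N) (i : Fin N) (c : Bool) (s : AS N) (hi : i ≠ r) :
    (if ψ ∈ (sta (i, c) s).2 r then (1 : ℝ) else 0) = if ψ ∈ s.2 r then (1 : ℝ) else 0 := by
  have : (sta (i, c) s).2 r = s.2 r := by
    unfold sta
    simp only [Function.update_of_ne (Ne.symm hi)]
  rw [this]

theorem ind_step2 (r : Fin N) (ψ : VV N) (s : AS N) :
    (if ψ ∈ (sta (r, true) s).2 r then (1 : ℝ) else 0) +
      (if ψ ∈ (sta (r, false) s).2 r then (1 : ℝ) else 0) =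
      if rowN s.1 (r.val + 1) ⬝ᵥ ψ = 0 then 2 * (if ψ ∈ s.2 r then (1 : ℝ) else 0) else 0 := by
  have h1 : ∀ c : Bool, (sta (r, c) s).2 r =
      (s.2 r).filter fun ψ => rowN s.1 (r.val + 1) ⬝ᵥ ψ = 0 := by
    intro c
    unfold sta
    simp only [Function.update_self]
  rw [h1, h1]
  simp only [Finset.mem_filter]
  by_cases h2 : ψ ∈ s.2 r <;> by_cases h3 : rowN s.1 (r.val + 1) ⬝ᵥ ψ = 0 <;> simp [h2, h3] <;>
    norm_num

/-- the key identity -/
theorem EA_key (t : ℝ) (r : Fin N) (ψ : VV N) (hψ : ψ r = 0) {F : AS N → ℝ} (hF : Dep r.val F) :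
    EA N t (fun s => chi (rowN s.1 r.val ⬝ᵥ ψ) * F s) =
      EA N t (fun s => (if ψ ∈ s.2 r then (1 : ℝ) else 0) * F s) := by
  unfold EA
  rw [Sg_eq_of_iter (sta (N := N)) (sta (N := N)) (fun s => chi (rowN s.1 r.val ⬝ᵥ ψ) * F s)
    (fun s => (if ψ ∈ s.2 r then (1 : ℝ) else 0) * F s) (st0 N) (st0 N) 1 t ?_, one_mul]
  intro k
  rw [iter_mult (chi_step1 r ψ) (chi_step2 r ψ) k hF, iter_mult (ind_step1 r ψ) (ind_step2 r ψ) k hF,
    one_mul]
  have e1 : chi (rowN (st0 N).1 r.val ⬝ᵥ ψ) = 1 := by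
    have : rowN (st0 N).1 r.val ⬝ᵥ ψ = ψ r := by
      change rowN (1 : MM N) r.val ⬝ᵥ ψ = ψ r
      rw [rowN_fin]
      simp [dotProduct, Matrix.one_apply]
    rw [this, hψ, chi_zero]
  have e2 : (if ψ ∈ (st0 N).2 r then (1 : ℝ) else 0) = 1 := by
    simp [st0]
  beta_reduce
  rw [e1, e2]

theorem EA_sum {α : Type*} (t : ℝ) (A : Finset α) (f : α → AS N → ℝ) :
    EA N t (fun s => ∑ a ∈ A, f a s) = ∑ a ∈ A, EA N t (f a) := by
  unfold EA
  exact Sg_sum_apply _ t A f _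

theorem EA_mono {t : ℝ} (ht : 0 ≤ t) {f g : AS N → ℝ} (h : ∀ s, f s ≤ g s) :
    EA N t f ≤ EA N t g := Sg_mono (Clo_univ _) (fun s _ => h s) t ht _ trivial

theorem EA_fourier {t : ℝ} (ht : 0 ≤ t) (r : Fin N) (W : AS N → Finset (VV N))
    (hWdep : ∀ s s', Rel r.val s s' → W s = W s') (hW : ∀ s, Sub0 (W s))
    (hWr : ∀ s, ∀ ψ ∈ W s, ψ r = 0) (v0 : VV N) (G : AS N → ℝ) (hG : Dep r.val G)
    (hG0 : ∀ s, 0 ≤ G s) :
    EA N t (fun s => if (∀ ψ ∈ W s, (rowN s.1 r.val + v0) ⬝ᵥ ψ = 0) then G s else 0) ≤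
      EA N t (fun s => ((W s ∩ s.2 r).card : ℝ) / ((W s).card : ℝ) * G s) := by
  set Fp : VV N → AS N → ℝ := fun ψ s => if ψ ∈ W s then chi (v0 ⬝ᵥ ψ) * G s / ((W s).card : ℝ) else 0
    with hFp
  have hpos : ∀ s, (0 : ℝ) < (W s).card := by
    intro s
    have : 0 < (W s).card := Finset.card_pos.2 ⟨0, (hW s).1⟩
    exact_mod_cast this
  have h1 : (fun s => if (∀ ψ ∈ W s, (rowN s.1 r.val + v0) ⬝ᵥ ψ = 0) then G s else 0) =
      fun s => ∑ ψ ∈ (Finset.univ : Finset (VV N)), chi (rowN s.1 r.val ⬝ᵥ ψ) * Fp ψ s := by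
    funext s
    have e1 : ∀ ψ : VV N, chi (rowN s.1 r.val ⬝ᵥ ψ) * Fp ψ s =
        if ψ ∈ W s then chi ((rowN s.1 r.val + v0) ⬝ᵥ ψ) * (G s / ((W s).card : ℝ)) else 0 := by
      intro ψ
      rw [hFp]
      beta_reduce
      split_ifs with h
      · rw [add_dotProduct, chi_add]; ring
      · rw [mul_zero]
    rw [Finset.sum_congr rfl (fun ψ _ => e1 ψ), ← Finset.sum_filter]
    have e2 : (Finset.univ.filter fun ψ => ψ ∈ W s) = W s := by ext ψ; simp
    rw [e2, ← Finset.sum_mul, char_sum (W s) (hW s)]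
    split_ifs with h
    · have := hpos s
      field_simp
    · rw [zero_mul]
  have h2 : ∀ ψ : VV N, EA N t (fun s => chi (rowN s.1 r.val ⬝ᵥ ψ) * Fp ψ s) =
      EA N t (fun s => (if ψ ∈ s.2 r then (1 : ℝ) else 0) * Fp ψ s) := by
    intro ψ
    by_cases hψ : ψ r = 0
    · refine EA_key t r ψ hψ ?_
      intro s s' hs
      rw [hFp]
      beta_reduce
      rw [hWdep s s' hs, hG s s' hs]
    · have : Fp ψ = fun _ => 0 := by
        funext s
        rw [hFp]
        beta_reduce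
        rw [if_neg (fun h => hψ (hWr s ψ h))]
      rw [this]
      simp only [mul_zero]
  rw [h1, EA_sum, Finset.sum_congr rfl (fun ψ _ => h2 ψ), ← EA_sum]
  refine EA_mono ht fun s => ?_
  have e3 : ∀ ψ : VV N, (if ψ ∈ s.2 r then (1 : ℝ) else 0) * Fp ψ s ≤
      if ψ ∈ W s ∩ s.2 r then G s / ((W s).card : ℝ) else 0 := by
    intro ψ
    rw [hFp]
    beta_reduce
    have hq : 0 ≤ G s / ((W s).card : ℝ) := div_nonneg (hG0 s) (hpos s).le
    by_cases h3 : ψ ∈ s.2 r <;> by_cases h4 : ψ ∈ W s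
    · rw [if_pos h3, if_pos h4, if_pos (Finset.mem_inter.2 ⟨h4, h3⟩), one_mul, mul_div_assoc]
      have := mul_le_mul_of_nonneg_right (chi_le_one (v0 ⬝ᵥ ψ)) hq
      linarith
    · simp [h3, h4]
    · simp [h3, h4]
    · simp [h3, h4]
  refine (Finset.sum_le_sum fun ψ _ => e3 ψ).trans ?_
  rw [← Finset.sum_filter]
  have e4 : (Finset.univ.filter fun ψ => ψ ∈ W s ∩ s.2 r) = W s ∩ s.2 r := by ext ψ; simp
  rw [e4, Finset.sum_const, nsmul_eq_mul]
  have := hpos s
  rw [div_mul_eq_mul_div, ← mul_div_assoc]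

/-- the invariant of the augmented walk -/
def Inv (N : ℕ) : Set (AS N) := {s | s.1 ∈ UTS N ∧ ∀ r : Fin N, ∀ ψ ∈ s.2 r,
  (∀ j : Fin N, ψ j ≠ 0 → r < j) → ∀ r' : Fin N, r' ≤ r → rowN s.1 r'.val ⬝ᵥ ψ = 0 ∧ ψ ∈ s.2 r'}

theorem st0_mem_Inv : st0 N ∈ Inv N := by
  refine ⟨one_mem_UTS, fun r ψ _ hψ r' hr' => ⟨?_, Finset.mem_univ _⟩⟩
  have : rowN (st0 N).1 r'.val ⬝ᵥ ψ = ψ r' := by
    change rowN (1 : MM N) r'.val ⬝ᵥ ψ = ψ r'
    rw [rowN_fin]
    simp [dotProduct, Matrix.one_apply]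
  rw [this]
  by_contra hc
  exact absurd (hψ r' hc) (not_lt.2 hr')

theorem Clo_Inv : Clo (sta (N := N)) (Inv N) := by
  rintro ⟨i, c⟩ s hs
  refine ⟨?_, ?_⟩
  · cases c
    · exact hs.1
    · exact Clo_UTS i s.1 hs.1
  · intro r ψ hψ hsupp r' hr'
    have hmem : ψ ∈ s.2 r ∧ (r = i → rowN s.1 (i.val + 1) ⬝ᵥ ψ = 0) := by
      by_cases hri : r = i
      · subst hri
        have : (sta (r, c) s).2 r = (s.2 r).filter fun ψ => rowN s.1 (r.val + 1) ⬝ᵥ ψ = 0 := by
          unfold sta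
          simp only [Function.update_self]
        rw [this, Finset.mem_filter] at hψ
        exact ⟨hψ.1, fun _ => hψ.2⟩
      · have : (sta (i, c) s).2 r = s.2 r := by
          unfold sta
          simp only [Function.update_of_ne hri]
        rw [this] at hψ
        exact ⟨hψ, fun h => absurd h hri⟩
    have hall := hs.2 r ψ hmem.1 hsupp
    have hnext : i ≤ r → rowN s.1 (i.val + 1) ⬝ᵥ ψ = 0 := by
      intro hir
      rcases eq_or_lt_of_le hir with h | h
      · exact hmem.2 h.symm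
      · have hi1 : i.val + 1 < N := lt_of_le_of_lt (Nat.succ_le_of_lt h) r.isLt
        exact (hall ⟨i.val + 1, hi1⟩ (Nat.succ_le_of_lt h)).1
    refine ⟨?_, ?_⟩
    · cases c
      · exact (hall r' hr').1
      · change rowN (stl i s.1) r'.val ⬝ᵥ ψ = 0
        rw [rowN_stl, add_dotProduct, (hall r' hr').1, zero_add]
        by_cases hri : r'.val = i.val
        · rw [if_pos hri]
          exact hnext (by rw [Fin.le_def, ← hri]; exact hr')
        · rw [if_neg hri, zero_dotProduct]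
    · by_cases hri : r' = i
      · subst hri
        have : (sta (r', c) s).2 r' = (s.2 r').filter fun ψ => rowN s.1 (r'.val + 1) ⬝ᵥ ψ = 0 := by
          unfold sta
          simp only [Function.update_self]
        rw [this, Finset.mem_filter]
        exact ⟨(hall r' hr').2, hnext hr'⟩
      · have : (sta (i, c) s).2 r' = s.2 r' := by
          unfold sta
          simp only [Function.update_of_ne hri]
        rw [this]
        exact (hall r' hr').2

theorem EA_mono_Inv {t : ℝ} (ht : 0 ≤ t) {f g : AS N → ℝ} (h : ∀ s ∈ Inv N, f s ≤ g s) :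
    EA N t f ≤ EA N t g := Sg_mono Clo_Inv (fun s hs => h s hs) t ht _ st0_mem_Inv

theorem EA_le_const {t : ℝ} (ht : 0 ≤ t) {f : AS N → ℝ} {c : ℝ} (h : ∀ s, f s ≤ c) :
    EA N t f ≤ c := Sg_le_const (Clo_univ _) (fun s _ => h s) t ht _ trivial

theorem EA_mul (t c : ℝ) (f : AS N → ℝ) : EA N t (fun s => c * f s) = c * EA N t f :=
  Sg_mul_apply _ t c f _

theorem EA_add (t : ℝ) (f g : AS N → ℝ) :
    EA N t (fun s => f s + g s) = EA N t f + EA N t g :=
  Sg_add_apply _ t f g _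

end Pool.Agent.Helper8.UT
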