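import Pool.Agent.Helper8.UT.Front

/-!
The rank current `J` and uniform exponential upper tails.
-/

set_option autoImplicit false
set_option linter.unusedSectionVars false

namespace Pool.Agent.Helper8.UT

open Finset Matrix Filter Topology

/-- expected block rank -/
noncomputable def cur (N a : ℕ) (t : ℝ) : ℝ := EE N t (fun A => (rk a A : ℝ))

/-- supremum over all sizes and cuts -/
noncomputable def HH (t : ℝ) : ℝ := ⨆ p : ℕ × ℕ, cur p.1 p.2 t

theorem cur_nonneg (N a : ℕ) {t : ℝ} (ht : 0 ≤ t) : 0 ≤ cur N a t :=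
  EE_nonneg ht fun A => Nat.cast_nonneg _

theorem cur_le (N a : ℕ) {t : ℝ} (ht : 0 ≤ t) : cur N a t ≤ Real.exp ((Real.exp 1 - 1) / 2 * t) := by
  refine le_trans ?_ (EE_exp_le (N := N) a 1 t (by norm_num) ht)
  refine EE_mono ht fun A _ => ?_
  rw [one_mul]
  have := Real.add_one_le_exp (rk a A : ℝ)
  linarith

theorem HH_bdd {t : ℝ} (ht : 0 ≤ t) : BddAbove (Set.range fun p : ℕ × ℕ => cur p.1 p.2 t) := by
  refine ⟨Real.exp ((Real.exp 1 - 1) / 2 * t), ?_⟩
  rintro _ ⟨p, rfl⟩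
  exact cur_le _ _ ht

theorem cur_le_HH (N a : ℕ) {t : ℝ} (ht : 0 ≤ t) : cur N a t ≤ HH t :=
  le_ciSup (HH_bdd ht) (N, a)

theorem HH_nonneg {t : ℝ} (ht : 0 ≤ t) : 0 ≤ HH t := (cur_nonneg 0 0 ht).trans (cur_le_HH 0 0 ht)

theorem HH_add {s t : ℝ} (hs : 0 ≤ s) (ht : 0 ≤ t) : HH (s + t) ≤ HH s + HH t := by
  refine ciSup_le fun p => ?_
  exact (EE_rk_add p.2 s t hs ht).trans (add_le_add (cur_le_HH _ _ hs) (cur_le_HH _ _ ht))

theorem HH_sub : Subadditive (fun k : ℕ => HH (k : ℝ)) := by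
  intro m n
  push_cast
  exact HH_add (Nat.cast_nonneg m) (Nat.cast_nonneg n)

/-- the rank current -/
noncomputable def JJ : ℝ := HH_sub.lim

theorem HH_below : BddBelow (Set.range fun n : ℕ => HH (n : ℝ) / n) := by
  refine ⟨0, ?_⟩
  rintro _ ⟨n, rfl⟩
  exact div_nonneg (HH_nonneg (Nat.cast_nonneg n)) (Nat.cast_nonneg n)

theorem JJ_tendsto : Tendsto (fun k : ℕ => HH (k : ℝ) / k) atTop (𝓝 JJ) :=
  HH_sub.tendsto_lim HH_below

theorem JJ_le {k : ℕ} (hk : k ≠ 0) : JJ ≤ HH (k : ℝ) / k := HH_sub.lim_le_div HH_below hk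

theorem exp3 : (20 : ℝ) ≤ Real.exp 3 := by
  have h1 := Real.exp_one_gt_d9
  have h2 : Real.exp 3 = Real.exp 1 ^ 3 := by
    rw [← Real.exp_nat_mul]; norm_num
  rw [h2]
  have h3 : (2.7182818283 : ℝ) ^ 3 ≤ Real.exp 1 ^ 3 := pow_le_pow_left₀ (by norm_num) h1.le 3
  refine le_trans ?_ h3
  norm_num

theorem HH_linear (x : ℕ) (hx : 1 ≤ x) : (x : ℝ) / 2 ≤ HH ((250 * x : ℕ) : ℝ) := by
  obtain ⟨a, ha⟩ : ∃ a : ℕ, 2 ^ x * (1000 / 12 * 4) ≤ (21 / 20 : ℝ) ^ (3 * a) := by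
    obtain ⟨a, ha⟩ := pow_unbounded_of_one_lt (2 ^ x * (1000 / 12 * 4) : ℝ)
      (show (1 : ℝ) < (21 / 20) by norm_num)
    exact ⟨a, ha.le.trans (pow_le_pow_right₀ (by norm_num) (by omega))⟩
  have h1 := EE_rk_lower (N := a + x) (a := a) (x := x) le_rfl
    (t := ((250 * x : ℕ) : ℝ)) (Nat.cast_nonneg _)
  refine le_trans ?_ (h1.trans (cur_le_HH (a + x) a (Nat.cast_nonneg _)))
  have h2 : 2 ^ x * (Real.exp (-(12 / 1000) * ((250 * x : ℕ) : ℝ)) * (21 / 20 : ℝ) ^ (3 * x)) ≤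
      1 / 4 := by
    have e1 : Real.exp (-(12 / 1000) * ((250 * x : ℕ) : ℝ)) = (Real.exp 3)⁻¹ ^ x := by
      rw [← Real.exp_neg, ← Real.exp_nat_mul]
      congr 1
      push_cast
      ring
    rw [e1, pow_mul, ← mul_pow, ← mul_pow]
    have e2 : 2 * ((Real.exp 3)⁻¹ * (21 / 20 : ℝ) ^ 3) ≤ 1 / 4 := by
      have : (Real.exp 3)⁻¹ ≤ 1 / 20 := by
        rw [one_div]
        exact inv_anti₀ (by norm_num) exp3
      nlinarith
    have e3 : 0 ≤ 2 * ((Real.exp 3)⁻¹ * (21 / 20 : ℝ) ^ 3) := by positivity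
    calc (2 * ((Real.exp 3)⁻¹ * (21 / 20 : ℝ) ^ 3)) ^ x ≤ (1 / 4) ^ x :=
          pow_le_pow_left₀ e3 e2 x
      _ ≤ (1 / 4) ^ 1 := pow_le_pow_of_le_one (by norm_num) (by norm_num) hx
      _ = 1 / 4 := by norm_num
  have h3 : 2 ^ x * (1000 / 12 / (21 / 20 : ℝ) ^ (3 * a)) ≤ 1 / 4 := by
    have hz : (0 : ℝ) < (21 / 20 : ℝ) ^ (3 * a) := by positivity
    rw [← mul_div_assoc, div_le_iff₀ hz]
    linarith
  have hx' : (1 : ℝ) ≤ x := by exact_mod_cast hx
  rw [mul_add]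
  linarith

theorem JJ_pos : 0 < JJ := by
  have h1 : (1 : ℝ) / 500 ≤ JJ := by
    have ht : Tendsto (fun x : ℕ => HH ((250 * x : ℕ) : ℝ) / ((250 * x : ℕ) : ℝ)) atTop (𝓝 JJ) := by
      refine JJ_tendsto.comp ?_
      exact tendsto_id.const_mul_atTop' (by norm_num)
    refine ge_of_tendsto ht ?_
    filter_upwards [eventually_ge_atTop 1] with x hx
    have h2 := HH_linear x hx
    have hx' : (1 : ℝ) ≤ x := by exact_mod_cast hx
    rw [le_div_iff₀ (by positivity)]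
    refine le_trans (le_of_eq ?_) h2
    push_cast
    ring
  linarith

/-- uniform exponential upper tails -/
theorem UT_bound (δ : ℝ) (hδ : 0 < δ) : ∃ θ : ℝ, 0 < θ ∧ θ ≤ 1 ∧ ∃ C1 : ℝ, ∀ (N a : ℕ) (t : ℝ), 0 ≤ t →
    EE N t (fun A => Real.exp (θ * (rk a A : ℝ))) ≤ Real.exp (θ * (JJ + δ) * t + C1) := by
  -- choice of the block time
  obtain ⟨τ, hτ1, hτ⟩ : ∃ τ : ℕ, 1 ≤ τ ∧ HH (τ : ℝ) ≤ (JJ + δ / 2) * τ := by
    have h1 : ∀ᶠ k : ℕ in atTop, HH (k : ℝ) / k < JJ + δ / 2 :=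
      JJ_tendsto.eventually (gt_mem_nhds (by linarith))
    obtain ⟨k, hk1, hk2⟩ := (h1.and (eventually_ge_atTop 1)).exists
    refine ⟨k, hk2, ?_⟩
    have : (0 : ℝ) < k := by exact_mod_cast hk2
    rw [div_lt_iff₀ this] at hk1
    exact hk1.le
  have hτ0 : (0 : ℝ) < τ := by exact_mod_cast hτ1
  set Cτ : ℝ := Real.exp ((Real.exp 1 - 1) / 2 * τ) with hCτ
  have hCpos : 0 < Cτ := Real.exp_pos _
  set θ : ℝ := min (1 / 2) (δ * τ / (32 * Cτ)) with hθ
  have hθ0 : 0 < θ := lt_min (by norm_num) (by positivity)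
  have hθ1 : θ ≤ 1 / 2 := min_le_left _ _
  have hθ2 : θ * (32 * Cτ) ≤ δ * τ := by
    have := min_le_right (1 / 2) (δ * τ / (32 * Cτ))
    rw [← hθ] at this
    rwa [le_div_iff₀ (by positivity)] at this
  clear_value θ
  refine ⟨θ, hθ0, by linarith, (Real.exp 1 - 1) / 2 * τ, ?_⟩
  -- one block
  have hone : ∀ N a : ℕ, EE N (τ : ℝ) (fun A => Real.exp (θ * (rk a A : ℝ))) ≤
      Real.exp (θ * (JJ + δ) * τ) := by
    intro N a
    have hpt : ∀ y : ℕ, Real.exp (θ * (y : ℝ)) ≤ 1 + θ * y + 16 * θ ^ 2 * Real.exp (1 * y) := by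
      intro y
      have hy : (0 : ℝ) ≤ y := Nat.cast_nonneg y
      have h1 : Real.exp (θ * y) ≤ 1 + θ * y + (θ * y) ^ 2 * Real.exp (θ * y) := by
        have h2 : 1 - θ * y ≤ Real.exp (-(θ * y)) := by
          have := Real.add_one_le_exp (-(θ * y))
          linarith
        have h3 : (1 - θ * y) * Real.exp (θ * y) ≤ 1 := by
          have := mul_le_mul_of_nonneg_right h2 (Real.exp_pos (θ * y)).le
          rwa [← Real.exp_add, neg_add_cancel, Real.exp_zero] at this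
        have h4 : 0 ≤ (1 + θ * y) * (1 - (1 - θ * y) * Real.exp (θ * y)) :=
          mul_nonneg (by positivity) (by linarith)
        nlinarith
      have h5 : (y : ℝ) ^ 2 ≤ 16 * Real.exp (y / 2) := by
        have h6 : (y : ℝ) ≤ 4 * Real.exp (y / 4) := by
          have := Real.add_one_le_exp ((y : ℝ) / 4)
          linarith
        have h7 : Real.exp ((y : ℝ) / 2) = Real.exp (y / 4) ^ 2 := by
          rw [← Real.exp_nat_mul]
          congr 1
          push_cast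
          ring
        rw [h7]
        nlinarith [Real.exp_pos ((y : ℝ) / 4)]
      have h8 : Real.exp (θ * y) ≤ Real.exp (y / 2) :=
        Real.exp_le_exp.2 (by nlinarith)
      have h9 : Real.exp (1 * (y : ℝ)) = Real.exp (y / 2) * Real.exp (y / 2) := by
        rw [← Real.exp_add]
        congr 1
        ring
      have h10 : (θ * y) ^ 2 * Real.exp (θ * y) ≤ 16 * θ ^ 2 * Real.exp (1 * y) := by
        rw [h9, mul_pow]
        have e1 : (y : ℝ) ^ 2 * Real.exp (θ * y) ≤ (16 * Real.exp (y / 2)) * Real.exp (y / 2) :=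
          mul_le_mul h5 h8 (Real.exp_pos _).le (by positivity)
        have e2 := mul_le_mul_of_nonneg_left e1 (sq_nonneg θ)
        nlinarith
      linarith
    have h11 : EE N (τ : ℝ) (fun A => Real.exp (θ * (rk a A : ℝ))) ≤
        EE N (τ : ℝ) (fun A => (1 + θ * (rk a A : ℝ)) + 16 * θ ^ 2 * Real.exp (1 * (rk a A : ℝ))) :=
      EE_mono hτ0.le fun A _ => hpt (rk a A)
    have h12 : EE N (τ : ℝ) (fun A => (1 + θ * (rk a A : ℝ)) +
        16 * θ ^ 2 * Real.exp (1 * (rk a A : ℝ))) = 1 + θ * cur N a τ +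
          16 * θ ^ 2 * EE N (τ : ℝ) (fun A => Real.exp (1 * (rk a A : ℝ))) := by
      unfold cur EE
      rw [Sg_add_apply _ _ (fun A => 1 + θ * (rk a A : ℝ)) (fun A => 16 * θ ^ 2 *
        Real.exp (1 * (rk a A : ℝ))), Sg_add_apply _ _ (fun _ => 1) (fun A => θ * (rk a A : ℝ)),
        Sg_const _ _ hτ0.le, Sg_mul_apply _ _ θ, Sg_mul_apply _ _ (16 * θ ^ 2)]
    have h13 : EE N (τ : ℝ) (fun A => Real.exp (1 * (rk a A : ℝ))) ≤ Cτ :=
      EE_exp_le (N := N) a 1 τ (by norm_num) hτ0.le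
    have h14 : cur N a τ ≤ (JJ + δ / 2) * τ := (cur_le_HH N a hτ0.le).trans hτ
    refine h11.trans ?_
    rw [h12]
    have h15 : θ * cur N a τ ≤ θ * ((JJ + δ / 2) * τ) := mul_le_mul_of_nonneg_left h14 hθ0.le
    have h16 : 16 * θ ^ 2 * EE N (τ : ℝ) (fun A => Real.exp (1 * (rk a A : ℝ))) ≤
        θ * (δ / 2 * τ) := by
      have e1 : 16 * θ ^ 2 * EE N (τ : ℝ) (fun A => Real.exp (1 * (rk a A : ℝ))) ≤
          16 * θ ^ 2 * Cτ := mul_le_mul_of_nonneg_left h13 (by positivity)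
      have e2 : θ * (θ * (32 * Cτ)) ≤ θ * (δ * τ) := mul_le_mul_of_nonneg_left hθ2 hθ0.le
      nlinarith
    have h17 := Real.add_one_le_exp (θ * (JJ + δ) * τ)
    refine le_trans ?_ h17
    linarith
  intro N a t ht
  have hblocks : ∀ q : ℕ, EE N ((q : ℝ) * τ) (fun A => Real.exp (θ * (rk a A : ℝ))) ≤
      Real.exp (θ * (JJ + δ) * (q * τ)) := by
    intro q
    induction q with
    | zero =>
      rw [Nat.cast_zero, zero_mul, mul_zero, Real.exp_zero]
      unfold EE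
      rw [Sg_zero, rk_one]
      simp
    | succ q ih =>
      have e1 : ((q + 1 : ℕ) : ℝ) * τ = τ + (q : ℝ) * τ := by push_cast; ring
      rw [e1]
      refine (EE_exp_add a θ _ _ hθ0.le hτ0.le (by positivity)).trans ?_
      have e2 : Real.exp (θ * (JJ + δ) * (τ + q * τ)) =
          Real.exp (θ * (JJ + δ) * τ) * Real.exp (θ * (JJ + δ) * (q * τ)) := by
        rw [← Real.exp_add]
        congr 1
        ring
      rw [e2]
      exact mul_le_mul (hone N a) ih (EE_nonneg (by positivity) fun A => (Real.exp_pos _).le)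
        (Real.exp_pos _).le
  set q : ℕ := ⌊t / τ⌋₊ with hq
  have hq1 : (q : ℝ) * τ ≤ t := by
    have := Nat.floor_le (div_nonneg ht hτ0.le)
    rwa [← hq, le_div_iff₀ hτ0] at this
  have hq2 : t < ((q : ℝ) + 1) * τ := by
    have := Nat.lt_floor_add_one (t / τ)
    rwa [← hq, div_lt_iff₀ hτ0] at this
  have hs0 : 0 ≤ t - q * τ := by linarith
  have e1 : t = (t - q * τ) + q * τ := by ring
  have h18 := EE_exp_add (N := N) a θ (t - q * τ) (q * τ) hθ0.le hs0 (by positivity)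
  rw [← e1] at h18
  refine h18.trans ?_
  have h19 := EE_exp_le (N := N) a θ (t - q * τ) hθ0.le hs0
  have h20 : Real.exp ((Real.exp θ - 1) / 2 * (t - q * τ)) ≤ Real.exp ((Real.exp 1 - 1) / 2 * τ) := by
    refine Real.exp_le_exp.2 ?_
    have e2 : Real.exp θ ≤ Real.exp 1 := Real.exp_le_exp.2 (by linarith)
    have e3 : (Real.exp θ - 1) / 2 ≤ (Real.exp 1 - 1) / 2 := by linarith
    have e4 : 0 ≤ (Real.exp θ - 1) / 2 := by
      have := Real.one_le_exp hθ0.le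
      linarith
    exact mul_le_mul e3 (by linarith) hs0 (e4.trans e3)
  have h21 : Real.exp (θ * (JJ + δ) * (q * τ)) ≤ Real.exp (θ * (JJ + δ) * t) := by
    refine Real.exp_le_exp.2 (mul_le_mul_of_nonneg_left hq1 ?_)
    have := JJ_pos
    positivity
  calc EE N (t - q * τ) (fun A => Real.exp (θ * (rk a A : ℝ))) *
        EE N (q * τ) (fun A => Real.exp (θ * (rk a A : ℝ)))
      ≤ Real.exp ((Real.exp 1 - 1) / 2 * τ) * Real.exp (θ * (JJ + δ) * t) :=
        mul_le_mul (h19.trans h20) ((hblocks q).trans h21)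
          (EE_nonneg (by positivity) fun A => (Real.exp_pos _).le) (Real.exp_pos _).le
    _ = Real.exp (θ * (JJ + δ) * t + (Real.exp 1 - 1) / 2 * τ) := by
        rw [← Real.exp_add]
        congr 1
        ring

end Pool.Agent.Helper8.UT
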