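import Pool.Agent.Helper8.UT.Lin

/-!
The first nonzero coordinate of `M ψ` moves left with positive speed (Lyapunov function), hence the
rank of the north-east block grows at least linearly.
-/

set_option autoImplicit false
set_option linter.unusedSectionVars false

namespace Pool.Agent.Helper8.UT

open Finset Matrix

variable {N : ℕ}

/-- East update of a sequence -/
def up (i : ℕ) (v : ℕ → ZMod 2) : ℕ → ZMod 2 := fun m => v m + if m = i then v (i + 1) else 0

/-- front -/
noncomputable def fr (v : ℕ → ZMod 2) : ℕ := sInf {m | v m ≠ 0}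

/-- bit after the front -/
noncomputable def bt (v : ℕ → ZMod 2) : ℕ := if v (fr v + 1) = 0 then 0 else 1

/-- Lyapunov function -/
noncomputable def Ly (v : ℕ → ZMod 2) : ℝ := (21 / 20 : ℝ) ^ (3 * fr v + bt v)

theorem fr_eq {v : ℕ → ZMod 2} {F : ℕ} (h1 : v F ≠ 0) (h2 : ∀ m, m < F → v m = 0) : fr v = F := by
  unfold fr
  refine le_antisymm (Nat.sInf_le h1) ?_
  refine le_csInf ⟨F, h1⟩ fun m hm => ?_
  by_contra hc
  exact hm (h2 m (not_le.1 hc))

theorem fr_spec {v : ℕ → ZMod 2} (h : ∃ m, v m ≠ 0) : v (fr v) ≠ 0 ∧ ∀ m, m < fr v → v m = 0 := by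
  refine ⟨Nat.sInf_mem (s := {m | v m ≠ 0}) h, fun m hm => ?_⟩
  by_contra hc
  exact Nat.notMem_of_lt_sInf hm hc

theorem up_ne {i : ℕ} {v : ℕ → ZMod 2} {m : ℕ} (h : m ≠ i) : up i v m = v m := by
  unfold up; rw [if_neg h, add_zero]

theorem up_self {i : ℕ} {v : ℕ → ZMod 2} : up i v i = v i + v (i + 1) := by
  unfold up; rw [if_pos rfl]

theorem up_triv {i : ℕ} {v : ℕ → ZMod 2} (h : v (i + 1) = 0) : up i v = v := by
  funext m
  unfold up
  rw [h]; simp

theorem up_exists {i : ℕ} {v : ℕ → ZMod 2} (h : ∃ m, v m ≠ 0) : ∃ m, up i v m ≠ 0 := by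
  obtain ⟨m, hm⟩ := h
  by_cases hmi : m = i
  · subst hmi
    by_cases h1 : v (m + 1) = 0
    · exact ⟨m, by rw [up_triv h1]; exact hm⟩
    · exact ⟨m + 1, by rw [up_ne (by omega)]; exact h1⟩
  · exact ⟨m, by rw [up_ne hmi]; exact hm⟩

/-- far updates do not change the Lyapunov function -/
theorem Ly_far {v : ℕ → ZMod 2} (h : ∃ m, v m ≠ 0) {i : ℕ} (hi : fr v + 1 < i) :
    Ly (up i v) = Ly v := by
  have hs := fr_spec h
  have h1 : fr (up i v) = fr v := by
    refine fr_eq ?_ ?_
    · rw [up_ne (by omega)]; exact hs.1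
    · intro m hm
      rw [up_ne (by omega)]; exact hs.2 m hm
  have h2 : bt (up i v) = bt v := by
    unfold bt
    rw [h1, up_ne (by omega)]
  unfold Ly
  rw [h1, h2]

theorem Ly_left {v : ℕ → ZMod 2} (h : ∃ m, v m ≠ 0) {i : ℕ} (hi : i + 1 < fr v) :
    Ly (up i v) = Ly v := by
  rw [up_triv ((fr_spec h).2 _ hi)]

theorem Ly_jump {v : ℕ → ZMod 2} (h : ∃ m, v m ≠ 0) {i : ℕ} (hi : i + 1 = fr v) :
    Ly (up i v) = (21 / 20 : ℝ) ^ (3 * i + 1) := by
  have hs := fr_spec h
  have h1 : fr (up i v) = i := by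
    refine fr_eq ?_ ?_
    · rw [up_self, hs.2 i (by omega), zero_add, hi]; exact hs.1
    · intro m hm
      rw [up_ne (by omega)]; exact hs.2 m (by omega)
  have h2 : bt (up i v) = 1 := by
    unfold bt
    rw [h1, up_ne (by omega), hi, if_neg hs.1]
  unfold Ly
  rw [h1, h2]

theorem Ly_front {v : ℕ → ZMod 2} (h : ∃ m, v m ≠ 0) (h1 : v (fr v + 1) ≠ 0) :
    Ly (up (fr v) v) ≤ (21 / 20 : ℝ) ^ (3 * fr v + 3 + if v (fr v + 2) = 0 then 0 else 1) := by
  have hs := fr_spec h
  have h2 : fr (up (fr v) v) = fr v + 1 := by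
    refine fr_eq ?_ ?_
    · rw [up_ne (by omega)]; exact h1
    · intro m hm
      rcases Nat.lt_succ_iff_lt_or_eq.1 hm with h3 | h3
      · rw [up_ne (by omega)]; exact hs.2 m h3
      · rw [h3, up_self, zmod2_ne _ hs.1, zmod2_ne _ h1]
        decide
  have h3 : bt (up (fr v) v) = if v (fr v + 2) = 0 then 0 else 1 := by
    unfold bt
    rw [h2, up_ne (by omega)]
  unfold Ly
  rw [h2, h3]
  refine le_of_eq ?_
  congr 1

theorem Ly_bit {v : ℕ → ZMod 2} (h : ∃ m, v m ≠ 0) (h1 : v (fr v + 2) ≠ 0) :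
    Ly (up (fr v + 1) v) = (21 / 20 : ℝ) ^ (3 * fr v + (1 - bt v)) := by
  have hs := fr_spec h
  have h2 : fr (up (fr v + 1) v) = fr v := by
    refine fr_eq ?_ ?_
    · rw [up_ne (by omega)]; exact hs.1
    · intro m hm
      rw [up_ne (by omega)]; exact hs.2 m hm
  have h3 : bt (up (fr v + 1) v) = 1 - bt v := by
    unfold bt
    rw [h2, up_self, zmod2_ne _ h1]
    rcases zmod2_cases (v (fr v + 1)) with h4 | h4
    · rw [h4, if_pos rfl, if_neg (by decide)]
    · rw [h4, if_pos (by decide), if_neg (by decide)]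
  unfold Ly
  rw [h2, h3]

/-- drift inequality for sequences -/
theorem Ly_drift {v : ℕ → ZMod 2} (h : ∃ m, v m ≠ 0) (hN : ∀ m, N ≤ m → v m = 0) :
    ∑ i : Fin N, (Ly (up i.val v) - Ly v) ≤ -(24 / 1000 : ℝ) * Ly v + 2 := by
  have hs := fr_spec h
  obtain ⟨F, hF⟩ : ∃ F, F = fr v := ⟨_, rfl⟩
  have hFN : F < N := by
    by_contra hc
    exact hs.1 (hF ▸ hN F (not_lt.1 hc))
  set x : ℝ := (21 / 20 : ℝ) ^ (3 * F) with hx
  have hx1 : 1 ≤ x := one_le_pow₀ (by norm_num)
  -- each summand is bounded by three special terms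
  set A : ℝ := if F = 0 then 0 else (21 / 20 : ℝ) ^ (3 * (F - 1) + 1) - Ly v with hA
  set B : ℝ := if v (F + 1) = 0 then 0 else
    (21 / 20 : ℝ) ^ (3 * F + 3 + if v (F + 2) = 0 then 0 else 1) - Ly v with hB
  set C : ℝ := if v (F + 2) = 0 then 0 else (21 / 20 : ℝ) ^ (3 * F + (1 - bt v)) - Ly v with hC
  have hterm : ∀ i : Fin N, Ly (up i.val v) - Ly v ≤
      (if i.val + 1 = F then A else 0) + (if i.val = F then B else 0) +
        (if i.val = F + 1 then C else 0) := by
    intro i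
    by_cases h1 : i.val + 1 = F
    · rw [if_pos h1, if_neg (by omega), if_neg (by omega), add_zero, add_zero,
        Ly_jump h (by rw [← hF]; exact h1), hA, if_neg (by omega)]
      have : F - 1 = i.val := by omega
      rw [this]
    · rw [if_neg h1, zero_add]
      by_cases h2 : i.val = F
      · rw [if_pos h2, if_neg (by omega), add_zero, hB, h2]
        split_ifs with h3
        · rw [up_triv h3, sub_self]
        · have h3' : v (fr v + 1) ≠ 0 := by rw [← hF]; exact h3
          have := Ly_front h h3'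
          rw [← hF] at this
          rename_i h4
          rw [if_pos h4] at this
          linarith
        · have h3' : v (fr v + 1) ≠ 0 := by rw [← hF]; exact h3
          have := Ly_front h h3'
          rw [← hF] at this
          rename_i h4
          rw [if_neg h4] at this
          linarith
      · rw [if_neg h2, zero_add]
        by_cases h4 : i.val = F + 1
        · rw [if_pos h4, hC, h4]
          split_ifs with h5
          · rw [up_triv h5, sub_self]
          · have := Ly_bit h (by rw [← hF]; exact h5)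
            rw [← hF] at this
            rw [this]
        · rw [if_neg h4]
          rcases lt_or_ge (i.val + 1) F with h5 | h5
          · rw [Ly_left h (by rw [← hF]; exact h5), sub_self]
          · rw [Ly_far h (by rw [← hF]; omega), sub_self]
  have hbt : bt v = if v (F + 1) = 0 then 0 else 1 := by
    unfold bt; rw [← hF]
  have hLy : Ly v = x * (21 / 20 : ℝ) ^ (bt v) := by
    unfold Ly
    rw [← hF, pow_add]
  -- sum of the special terms
  have hsumA : ∑ i : Fin N, (if i.val + 1 = F then A else 0) ≤ A := by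
    by_cases hF0 : F = 0
    · have : A = 0 := by rw [hA, if_pos hF0]
      rw [this]; simp
    · rw [Finset.sum_eq_single (⟨F - 1, by omega⟩ : Fin N)]
      · rw [if_pos]
        simp only
        omega
      · intro b _ hb
        rw [if_neg]
        intro hb'
        apply hb
        apply Fin.ext
        simp only
        omega
      · intro hb; exact absurd (Finset.mem_univ _) hb
  have hsumB : ∑ i : Fin N, (if i.val = F then B else 0) ≤ B := by
    rw [Finset.sum_eq_single (⟨F, hFN⟩ : Fin N)]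
    · rw [if_pos rfl]
    · intro b _ hb
      rw [if_neg]
      intro hb'
      exact hb (Fin.ext hb')
    · intro hb; exact absurd (Finset.mem_univ _) hb
  have hsumC : ∑ i : Fin N, (if i.val = F + 1 then C else 0) ≤ C := by
    by_cases h1 : F + 1 < N
    · rw [Finset.sum_eq_single (⟨F + 1, h1⟩ : Fin N)]
      · rw [if_pos rfl]
      · intro b _ hb
        rw [if_neg]
        intro hb'
        exact hb (Fin.ext hb')
      · intro hb; exact absurd (Finset.mem_univ _) hb
    · have : C = 0 := by rw [hC, if_pos (hN (F + 2) (by omega))]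
      rw [this]; simp
  have htot : ∑ i : Fin N, (Ly (up i.val v) - Ly v) ≤ A + B + C := by
    refine (Finset.sum_le_sum fun i _ => hterm i).trans ?_
    rw [Finset.sum_add_distrib, Finset.sum_add_distrib]
    linarith
  refine htot.trans ?_
  have hA2 : (A = 0 ∧ x = 1) ∨ A = x * (400 / 441) - Ly v := by
    rw [hA]
    by_cases hF0 : F = 0
    · left
      rw [if_pos hF0]
      exact ⟨rfl, by rw [hx, hF0]; norm_num⟩
    · right
      rw [if_neg hF0]
      have : 3 * F = 3 * (F - 1) + 1 + 2 := by omega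
      rw [hx, this, pow_add (21 / 20 : ℝ) (3 * (F - 1) + 1) 2]
      ring
  have hC2 : (v (F + 2) = 0 ∧ C = 0) ∨
      (v (F + 2) ≠ 0 ∧ C = x * (21 / 20) ^ (1 - bt v) - Ly v) := by
    rw [hC]
    by_cases h2 : v (F + 2) = 0
    · left; rw [if_pos h2]; exact ⟨h2, rfl⟩
    · right; rw [if_neg h2, hx, ← pow_add]; exact ⟨h2, rfl⟩
  have hB2 : (bt v = 0 ∧ B = 0) ∨ (bt v = 1 ∧ v (F + 2) = 0 ∧ B = x * (9261 / 8000) - Ly v) ∨
      (bt v = 1 ∧ v (F + 2) ≠ 0 ∧ B = x * (194481 / 160000) - Ly v) := by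
    rw [hB, hbt]
    by_cases h1 : v (F + 1) = 0
    · left; rw [if_pos h1, if_pos h1]; exact ⟨rfl, rfl⟩
    · right
      rw [if_neg h1, if_neg h1]
      by_cases h2 : v (F + 2) = 0
      · left
        rw [if_pos h2, hx, add_zero, pow_add]
        exact ⟨rfl, h2, by norm_num⟩
      · right
        rw [if_neg h2, hx, add_assoc, pow_add]
        exact ⟨rfl, h2, by norm_num⟩
  clear_value A B C x
  rcases hB2 with ⟨hb, hB3⟩ | ⟨hb, h2, hB3⟩ | ⟨hb, h2, hB3⟩
  · rw [hb, pow_zero, mul_one] at hLy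
    rcases hC2 with ⟨h3, hC3⟩ | ⟨h3, hC3⟩
    · rcases hA2 with ⟨hA3, hx3⟩ | hA3
      · rw [hA3, hB3, hC3, hLy, hx3]; norm_num
      · rw [hA3, hB3, hC3, hLy]; linarith
    · rw [hb, Nat.sub_zero, pow_one] at hC3
      rcases hA2 with ⟨hA3, hx3⟩ | hA3
      · rw [hA3, hB3, hC3, hLy, hx3]; norm_num
      · rw [hA3, hB3, hC3, hLy]; linarith
  · rw [hb, pow_one] at hLy
    rcases hC2 with ⟨h3, hC3⟩ | ⟨h3, hC3⟩
    · rcases hA2 with ⟨hA3, hx3⟩ | hA3
      · rw [hA3, hB3, hC3, hLy, hx3]; norm_num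
      · rw [hA3, hB3, hC3, hLy]; linarith
    · exact absurd h2 h3
  · rw [hb, pow_one] at hLy
    rcases hC2 with ⟨h3, hC3⟩ | ⟨h3, hC3⟩
    · exact absurd h3 h2
    · rw [hb, Nat.sub_self, pow_zero, mul_one] at hC3
      rcases hA2 with ⟨hA3, hx3⟩ | hA3
      · rw [hA3, hB3, hC3, hLy, hx3]; norm_num
      · rw [hA3, hB3, hC3, hLy]; linarith

/-- the sequence of scalar products -/
def sq (ψ : VV N) (A : MM N) : ℕ → ZMod 2 := fun m => rowN A m ⬝ᵥ ψ

theorem sq_stl (ψ : VV N) (A : MM N) (i : Fin N) : sq ψ (stl i A) = up i.val (sq ψ A) := by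
  funext m
  unfold sq up
  rw [rowN_stl, add_dotProduct]
  congr 1
  split_ifs with h
  · rfl
  · rw [zero_dotProduct]

theorem sq_out (ψ : VV N) (A : MM N) {m : ℕ} (h : N ≤ m) : sq ψ A m = 0 := by
  unfold sq
  have : rowN A m = 0 := by
    funext b
    simp [rowN, not_lt.2 h]
  rw [this, zero_dotProduct]

theorem sq_one (ψ : VV N) (j : Fin N) : sq ψ 1 j.val = ψ j := by
  unfold sq
  rw [rowN_fin]
  simp [dotProduct, Matrix.one_apply]

theorem EE_Ly {ψ : VV N} {a x : ℕ} (hψ : suppIn ψ a (a + x)) (h0 : ψ ≠ 0) {t : ℝ} (ht : 0 ≤ t) :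
    EE N t (fun A => Ly (sq ψ A)) ≤
      Real.exp (-(12 / 1000) * t) * (21 / 20 : ℝ) ^ (3 * (a + x)) + 1000 / 12 := by
  obtain ⟨j0, hj0⟩ : ∃ j, ψ j ≠ 0 := by
    by_contra hc
    push Not at hc
    exact h0 (funext hc)
  have hex : ∃ m, sq ψ 1 m ≠ 0 := ⟨j0.val, by rw [sq_one]; exact hj0⟩
  have hclo : Clo (stl (N := N)) {A | ∃ m, sq ψ A m ≠ 0} := by
    intro i A hA
    change ∃ m, sq ψ (stl i A) m ≠ 0
    rw [sq_stl]
    exact up_exists hA
  have h1 := Sg_le_of_gen_le_add hclo (fun A => Ly (sq ψ A)) (12 / 1000) 1 (by norm_num)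
    (by norm_num) (fun A hA => by
      have h2 := Ly_drift (N := N) (v := sq ψ A) hA (fun m hm => sq_out ψ A hm)
      unfold gen
      simp only [sq_stl]
      linarith) t ht 1 hex
  unfold EE
  refine h1.trans ?_
  have h3 : Ly (sq ψ (1 : MM N)) ≤ (21 / 20 : ℝ) ^ (3 * (a + x)) := by
    have hs := fr_spec hex
    have hfr : fr (sq ψ (1 : MM N)) < a + x := by
      by_contra hc
      have : j0.val < fr (sq ψ (1 : MM N)) := lt_of_lt_of_le (hψ j0 hj0).2 (not_lt.1 hc)
      exact hj0 (by rw [← sq_one ψ j0]; exact hs.2 _ this)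
    unfold Ly
    refine pow_le_pow_right₀ (by norm_num) ?_
    have : bt (sq ψ (1 : MM N)) ≤ 1 := by
      unfold bt; split_ifs <;> norm_num
    omega
  have h4 := mul_le_mul_of_nonneg_left h3 (Real.exp_pos (-(12 / 1000) * t)).le
  norm_num at h4 ⊢
  linarith

open Classical in
theorem EE_ker {ψ : VV N} {a x : ℕ} (hψ : suppIn ψ a (a + x)) (h0 : ψ ≠ 0) {t : ℝ} (ht : 0 ≤ t) :
    EE N t (fun A => if ψ ∈ KerB a (a + x) A then (1 : ℝ) else 0) ≤
      Real.exp (-(12 / 1000) * t) * (21 / 20 : ℝ) ^ (3 * x) + 1000 / 12 / (21 / 20 : ℝ) ^ (3 * a) := by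
  obtain ⟨j0, hj0⟩ : ∃ j, ψ j ≠ 0 := by
    by_contra hc
    push Not at hc
    exact h0 (funext hc)
  have hex : ∃ m, sq ψ 1 m ≠ 0 := ⟨j0.val, by rw [sq_one]; exact hj0⟩
  have hclo : Clo (stl (N := N)) {A | ∃ m, sq ψ A m ≠ 0} := by
    intro i A hA
    change ∃ m, sq ψ (stl i A) m ≠ 0
    rw [sq_stl]
    exact up_exists hA
  have hz : (0 : ℝ) < (21 / 20 : ℝ) ^ (3 * a) := by positivity
  have h1 : EE N t (fun A => if ψ ∈ KerB a (a + x) A then (1 : ℝ) else 0) ≤
      EE N t (fun A => 1 / (21 / 20 : ℝ) ^ (3 * a) * Ly (sq ψ A)) := by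
    unfold EE
    refine Sg_mono hclo (fun A hA => ?_) t ht 1 hex
    have hpos : 0 ≤ Ly (sq ψ A) := by unfold Ly; positivity
    split_ifs with h
    · unfold KerB at h
      rw [Finset.mem_filter] at h
      have hs := fr_spec hA
      have hfr : a ≤ fr (sq ψ A) := by
        by_contra hc
        exact hs.1 (h.2 _ (not_le.1 hc))
      have : (21 / 20 : ℝ) ^ (3 * a) ≤ Ly (sq ψ A) := by
        unfold Ly
        exact pow_le_pow_right₀ (by norm_num) (by omega)
      rw [one_div, ← div_eq_inv_mul, le_div_iff₀ hz, one_mul]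
      exact this
    · positivity
  refine h1.trans ?_
  have h2 : EE N t (fun A => 1 / (21 / 20 : ℝ) ^ (3 * a) * Ly (sq ψ A)) =
      1 / (21 / 20 : ℝ) ^ (3 * a) * EE N t (fun A => Ly (sq ψ A)) := by
    unfold EE
    rw [Sg_mul_apply]
  rw [h2]
  have h3 := mul_le_mul_of_nonneg_left (EE_Ly hψ h0 ht) (by positivity :
    (0 : ℝ) ≤ 1 / (21 / 20 : ℝ) ^ (3 * a))
  refine h3.trans (le_of_eq ?_)
  rw [Nat.mul_add, pow_add]
  field_simp

/-- lower bound for the expected rank -/
theorem EE_rk_lower {a x : ℕ} (hN : a + x ≤ N) {t : ℝ} (ht : 0 ≤ t) :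
    (x : ℝ) - 2 ^ x * (Real.exp (-(12 / 1000) * t) * (21 / 20 : ℝ) ^ (3 * x) +
      1000 / 12 / (21 / 20 : ℝ) ^ (3 * a)) ≤ EE N t (fun A => (rk a A : ℝ)) := by
  classical
  set c : ℝ := Real.exp (-(12 / 1000) * t) * (21 / 20 : ℝ) ^ (3 * x) +
      1000 / 12 / (21 / 20 : ℝ) ^ (3 * a) with hc
  have hc0 : 0 ≤ c := by positivity
  have h1 : EE N t (fun A => ((KerB a (a + x) A).card : ℝ)) ≤ 1 + 2 ^ x * c := by
    have h2 : EE N t (fun A => ((KerB a (a + x) A).card : ℝ)) =
        ∑ ψ ∈ SI N a (a + x), EE N t (fun A => if ψ ∈ KerB a (a + x) A then (1 : ℝ) else 0) := by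
      have : ∑ ψ ∈ SI N a (a + x), EE N t (fun A => if ψ ∈ KerB a (a + x) A then (1 : ℝ) else 0) =
          EE N t (fun A => ∑ ψ ∈ SI N a (a + x), if ψ ∈ KerB a (a + x) A then (1 : ℝ) else 0) := by
        unfold EE
        rw [Sg_sum_apply]
      rw [this]
      congr 1
      funext A
      rw [← Finset.sum_filter, Finset.sum_const, nsmul_eq_mul, mul_one]
      congr 2
      ext ψ
      unfold KerB
      simp only [Finset.mem_filter]
      tauto
    rw [h2, ← Finset.add_sum_erase _ _ (SI_sub0 a (a + x)).1]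
    refine add_le_add ?_ ?_
    · exact EE_le_one ht fun A => by split_ifs <;> norm_num
    · have h3 : ∀ ψ ∈ (SI N a (a + x)).erase 0,
          EE N t (fun A => if ψ ∈ KerB a (a + x) A then (1 : ℝ) else 0) ≤ c := by
        intro ψ hψ
        rw [Finset.mem_erase, mem_SI] at hψ
        exact EE_ker hψ.2 hψ.1 ht
      refine (Finset.sum_le_sum h3).trans ?_
      rw [Finset.sum_const, nsmul_eq_mul]
      refine mul_le_mul_of_nonneg_right ?_ hc0
      have h4 : ((SI N a (a + x)).erase 0).card ≤ 2 ^ x := by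
        refine (Finset.card_erase_le).trans (le_of_eq ?_)
        rw [card_SI (by omega) hN]
        congr 1
        omega
      exact_mod_cast h4
  have h5 : EE N t (fun _ => (x : ℝ) + 1) ≤
      EE N t (fun A => (rk a A : ℝ) + ((KerB a (a + x) A).card : ℝ)) := by
    refine EE_mono ht fun A _ => ?_
    have h6 := KerB_lower (show a ≤ a + x by omega) hN A
    have h7 : a + x - a = x := by omega
    rw [h7] at h6
    have h8 : x + 1 ≤ rk a A + (KerB a (a + x) A).card := by
      rcases le_or_gt x (rk a A) with h | h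
      · have : 0 < (KerB a (a + x) A).card := by
          rcases Nat.eq_zero_or_pos (KerB a (a + x) A).card with h9 | h9
          · rw [h9, zero_mul] at h6
            have : 0 < 2 ^ x := by positivity
            omega
          · exact h9
        omega
      · have h9 : 2 ^ (x - rk a A) * 2 ^ rk a A ≤ (KerB a (a + x) A).card * 2 ^ rk a A := by
          rw [← pow_add]
          have : x - rk a A + rk a A = x := by omega
          rw [this]
          exact h6
        have h10 := Nat.le_of_mul_le_mul_right h9 (by positivity)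
        have h11 : x - rk a A < 2 ^ (x - rk a A) := Nat.lt_two_pow_self
        omega
    exact_mod_cast h8
  rw [EE_const ht] at h5
  have h12 : EE N t (fun A => (rk a A : ℝ) + ((KerB a (a + x) A).card : ℝ)) =
      EE N t (fun A => (rk a A : ℝ)) + EE N t (fun A => ((KerB a (a + x) A).card : ℝ)) :=
    Sg_add_apply _ t _ _ _
  rw [h12] at h5
  linarith

end Pool.Agent.Helper8.UT
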