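import Pool.Agent.Helper8.UT.Mat

/-!
Counting vectors over the field with two elements.
-/

set_option autoImplicit false
set_option linter.unusedSectionVars false

namespace Pool.Agent.Helper8.UT

open Finset Matrix

variable {N : ℕ}

/-- vectors -/
abbrev VV (N : ℕ) := Fin N → ZMod 2

/-- closed under addition and containing zero -/
def Sub0 (W : Finset (VV N)) : Prop := 0 ∈ W ∧ ∀ x ∈ W, ∀ y ∈ W, x + y ∈ W

theorem add_self2 (x : VV N) : x + x = 0 := by
  funext i
  exact CharTwo.add_self_eq_zero (x i)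

/-- sign -/
noncomputable def chi (x : ZMod 2) : ℝ := if x = 0 then 1 else -1

theorem zmod2_cases (x : ZMod 2) : x = 0 ∨ x = 1 := by
  revert x; decide

theorem chi_add (x y : ZMod 2) : chi (x + y) = chi x * chi y := by
  have h11 : (1 : ZMod 2) + 1 = 0 := by decide
  have h10 : (1 : ZMod 2) ≠ 0 := by decide
  unfold chi
  rcases zmod2_cases x with rfl | rfl <;> rcases zmod2_cases y with rfl | rfl <;> simp [h11, h10]

theorem chi_zero : chi 0 = 1 := by simp [chi]

theorem chi_le_one (x : ZMod 2) : chi x ≤ 1 := by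
  unfold chi; split_ifs <;> norm_num

theorem zmod2_ne (x : ZMod 2) (h : x ≠ 0) : x = 1 :=
  (zmod2_cases x).resolve_left h

theorem char_sum (W : Finset (VV N)) (hW : Sub0 W) (v : VV N) :
    ∑ ψ ∈ W, chi (v ⬝ᵥ ψ) = if (∀ ψ ∈ W, v ⬝ᵥ ψ = 0) then (W.card : ℝ) else 0 := by
  split_ifs with h
  · rw [Finset.sum_congr rfl (fun ψ hψ => by rw [h ψ hψ, chi_zero]), Finset.sum_const, nsmul_eq_mul,
      mul_one]
  · push Not at h
    obtain ⟨ψ0, h0, h1⟩ := h
    have h2 : v ⬝ᵥ ψ0 = 1 := zmod2_ne _ h1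
    have h3 : ∑ ψ ∈ W, chi (v ⬝ᵥ ψ) = ∑ ψ ∈ W, chi (v ⬝ᵥ (ψ + ψ0)) := by
      symm
      refine Finset.sum_nbij' (fun ψ => ψ + ψ0) (fun ψ => ψ + ψ0) ?_ ?_ ?_ ?_ ?_
      · intro ψ hψ; exact hW.2 _ hψ _ h0
      · intro ψ hψ; exact hW.2 _ hψ _ h0
      · intro ψ _; change ψ + ψ0 + ψ0 = ψ; rw [add_assoc, add_self2, add_zero]
      · intro ψ _; change ψ + ψ0 + ψ0 = ψ; rw [add_assoc, add_self2, add_zero]
      · intro ψ _; rfl
    have h4 : ∀ ψ : VV N, chi (v ⬝ᵥ (ψ + ψ0)) = - chi (v ⬝ᵥ ψ) := by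
      intro ψ
      rw [dotProduct_add, chi_add, h2]
      have : chi 1 = -1 := by simp [chi]
      rw [this]; ring
    simp only [h4, Finset.sum_neg_distrib] at h3
    linarith

/-- support contained in `[a,b)` -/
def suppIn (ψ : VV N) (a b : ℕ) : Prop := ∀ j : Fin N, ψ j ≠ 0 → a ≤ j.val ∧ j.val < b

open Classical in
/-- the vectors supported in `[a,b)` -/
noncomputable def SI (N a b : ℕ) : Finset (VV N) := Finset.univ.filter fun ψ => suppIn ψ a b

theorem mem_SI {a b : ℕ} {ψ : VV N} : ψ ∈ SI N a b ↔ suppIn ψ a b := by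
  unfold SI; simp

theorem SI_sub0 (a b : ℕ) : Sub0 (SI N a b) := by
  refine ⟨?_, ?_⟩
  · rw [mem_SI]; intro j hj; exact absurd rfl hj
  · intro x hx y hy
    rw [mem_SI] at *
    intro j hj
    by_cases h : x j = 0
    · refine hy j fun h' => hj ?_
      rw [Pi.add_apply, h, h', add_zero]
    · exact hx j h

theorem card_SI {a b : ℕ} (hab : a ≤ b) (hb : b ≤ N) : (SI N a b).card = 2 ^ (b - a) := by
  have h1 : Fintype.card (Fin (b - a) → ZMod 2) = 2 ^ (b - a) := by
    rw [Fintype.card_fun, ZMod.card, Fintype.card_fin]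
  rw [← h1, ← Finset.card_univ]
  refine Finset.card_bij' (fun ψ _ => fun i : Fin (b - a) => ψ ⟨a + i.val, by omega⟩)
    (fun w _ => fun j : Fin N => if h : a ≤ j.val ∧ j.val < b then w ⟨j.val - a, by omega⟩ else 0)
    ?_ ?_ ?_ ?_
  · intro ψ _; exact Finset.mem_univ _
  · intro w _
    rw [mem_SI]
    intro j hj
    by_contra hc
    apply hj
    beta_reduce
    rw [dif_neg hc]
  · intro ψ hψ
    rw [mem_SI] at hψ
    funext j
    beta_reduce
    split_ifs with h
    · congr 1
      apply Fin.ext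
      change a + (j.val - a) = j.val
      omega
    · by_contra hc
      exact h (hψ j (fun h' => hc h'.symm))
  · intro w _
    funext i
    beta_reduce
    rw [dif_pos]
    · congr 1
      apply Fin.ext
      change a + i.val - a = i.val
      omega
    · change a ≤ a + i.val ∧ a + i.val < b
      omega

theorem count_le {V' : Type*} [AddCommGroup V'] [DecidableEq V'] (f : VV N → V')
    (hf : ∀ x y, f (x + y) = f x + f y) (E : Finset (VV N)) (hE : Sub0 E) :
    E.card ≤ (E.filter fun ψ => f ψ = 0).card * (E.image f).card := by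
  refine Finset.card_le_mul_card_image E _ ?_
  intro y hy
  obtain ⟨ψ0, h0, rfl⟩ := Finset.mem_image.1 hy
  refine Finset.card_le_card_of_injOn (fun ψ => ψ + ψ0) ?_ ?_
  · intro ψ hψ
    have hψ' := Finset.mem_filter.1 hψ
    refine Finset.mem_filter.2 ⟨hE.2 _ hψ'.1 _ h0, ?_⟩
    beta_reduce
    rw [hf, hψ'.2, ← hf, add_self2]
    have := hf 0 0
    rw [add_zero] at this
    exact left_eq_add.1 this
  · intro x _ y _ hxy
    exact add_right_cancel hxy

theorem le_count {V' : Type*} [AddCommGroup V'] [DecidableEq V'] (f : VV N → V')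
    (hf : ∀ x y, f (x + y) = f x + f y) (E : Finset (VV N)) (hE : Sub0 E) :
    (E.filter fun ψ => f ψ = 0).card * (E.image f).card ≤ E.card := by
  refine Finset.mul_card_image_le_card E _ ?_
  intro y hy
  obtain ⟨ψ0, h0, rfl⟩ := Finset.mem_image.1 hy
  refine Finset.card_le_card_of_injOn (fun ψ => ψ + ψ0) ?_ ?_
  · intro ψ hψ
    have hψ' := Finset.mem_filter.1 hψ
    refine Finset.mem_filter.2 ⟨hE.2 _ hψ'.1 _ h0, ?_⟩
    beta_reduce
    rw [hf, hψ'.2, zero_add]
  · intro x _ y _ hxy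
    exact add_right_cancel hxy

open Classical in
theorem card_range (A : MM N) :
    (Finset.univ.image fun ψ : VV N => A *ᵥ ψ).card = 2 ^ A.rank := by
  have h1 := Module.card_eq_pow_finrank (K := ZMod 2) (V := LinearMap.range A.mulVecLin)
  rw [ZMod.card] at h1
  have h2 : Module.finrank (ZMod 2) (LinearMap.range A.mulVecLin) = A.rank := rfl
  rw [h2] at h1
  rw [← h1, ← Fintype.card_coe]
  refine Fintype.card_congr (Equiv.subtypeEquivRight fun y => ?_)
  simp [LinearMap.mem_range]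

open Classical in
/-- lower bound for the number of solutions -/
theorem ker_lower (A : MM N) (E : Finset (VV N)) (hE : Sub0 E) :
    E.card ≤ (E.filter fun ψ => A *ᵥ ψ = 0).card * 2 ^ A.rank := by
  refine (count_le (fun ψ => A *ᵥ ψ) (fun x y => Matrix.mulVec_add A x y) E hE).trans ?_
  refine Nat.mul_le_mul le_rfl ?_
  rw [← card_range]
  exact Finset.card_le_card (Finset.image_subset_image (Finset.subset_univ _))

open Classical in
/-- upper bound for the number of solutions -/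
theorem ker_upper (A : MM N) (E : Finset (VV N)) (hE : Sub0 E)
    (h : ∀ ψ : VV N, ∃ φ ∈ E, A *ᵥ φ = A *ᵥ ψ) :
    (E.filter fun ψ => A *ᵥ ψ = 0).card * 2 ^ A.rank ≤ E.card := by
  refine le_trans ?_ (le_count (fun ψ => A *ᵥ ψ) (fun x y => Matrix.mulVec_add A x y) E hE)
  refine Nat.mul_le_mul le_rfl ?_
  rw [← card_range]
  refine Finset.card_le_card ?_
  intro y hy
  obtain ⟨ψ, _, rfl⟩ := Finset.mem_image.1 hy
  obtain ⟨φ, hφ, h2⟩ := h ψ
  exact Finset.mem_image.2 ⟨φ, hφ, h2⟩

/-- the block acting on a vector supported from `a` on -/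
theorem blk_mulVec_eq_zero_iff {a : ℕ} (A : MM N) {ψ : VV N} (hψ : suppIn ψ a N) :
    blk a A *ᵥ ψ = 0 ↔ ∀ m, m < a → rowN A m ⬝ᵥ ψ = 0 := by
  have key : ∀ i : Fin N, i.val < a → (blk a A *ᵥ ψ) i = A i ⬝ᵥ ψ := by
    intro i hi
    unfold Matrix.mulVec dotProduct
    refine Finset.sum_congr rfl fun j _ => ?_
    unfold blk
    beta_reduce
    by_cases hj : a ≤ j.val
    · rw [if_pos (And.intro hi hj)]
    · rw [if_neg (fun h : i.val < a ∧ a ≤ j.val => hj h.2)]
      have : ψ j = 0 := by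
        by_contra hc
        exact hj (hψ j hc).1
      rw [this, mul_zero, mul_zero]
  constructor
  · intro h m hm
    by_cases hmN : m < N
    · have h1 := key ⟨m, hmN⟩ hm
      rw [h] at h1
      have h2 : rowN A m = A ⟨m, hmN⟩ := rowN_fin A ⟨m, hmN⟩
      rw [h2, ← h1]
      rfl
    · have : rowN A m = 0 := by
        funext b
        simp [rowN, hmN]
      rw [this, zero_dotProduct]
  · intro h
    funext i
    by_cases hi : i.val < a
    · rw [key i hi, ← rowN_fin A i, h _ hi]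
      rfl
    · unfold Matrix.mulVec dotProduct
      rw [Finset.sum_eq_zero]
      · rfl
      · intro j _
        unfold blk
        beta_reduce
        rw [if_neg (fun h' : i.val < a ∧ a ≤ j.val => hi h'.1), zero_mul]

open Classical in
/-- the kernel of the block -/
noncomputable def KerB (a b : ℕ) (A : MM N) : Finset (VV N) :=
  (SI N a b).filter fun ψ => ∀ m, m < a → rowN A m ⬝ᵥ ψ = 0

theorem suppIn_mono {ψ : VV N} {a b a' b' : ℕ} (h : suppIn ψ a b) (ha : a' ≤ a) (hb : b ≤ b') :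
    suppIn ψ a' b' := fun j hj => ⟨ha.trans (h j hj).1, lt_of_lt_of_le (h j hj).2 hb⟩

open Classical in
theorem KerB_eq {a b : ℕ} (A : MM N) :
    KerB a b A = (SI N a b).filter fun ψ => blk a A *ᵥ ψ = 0 := by
  unfold KerB
  ext ψ
  simp only [Finset.mem_filter]
  constructor
  · rintro ⟨h1, h2⟩
    refine ⟨h1, (blk_mulVec_eq_zero_iff A ?_).2 h2⟩
    exact fun j hj => ⟨(mem_SI.1 h1 j hj).1, j.isLt⟩
  · rintro ⟨h1, h2⟩
    refine ⟨h1, (blk_mulVec_eq_zero_iff A ?_).1 h2⟩
    exact fun j hj => ⟨(mem_SI.1 h1 j hj).1, j.isLt⟩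

theorem KerB_lower {a b : ℕ} (hab : a ≤ b) (hb : b ≤ N) (A : MM N) :
    2 ^ (b - a) ≤ (KerB a b A).card * 2 ^ rk a A := by
  rw [← card_SI hab hb, KerB_eq]
  exact ker_lower _ _ (SI_sub0 a b)

theorem KerB_upper {a : ℕ} (ha : a ≤ N) (A : MM N) :
    (KerB a N A).card * 2 ^ rk a A ≤ 2 ^ (N - a) := by
  rw [← card_SI ha le_rfl, KerB_eq]
  refine ker_upper _ _ (SI_sub0 a N) ?_
  intro ψ
  refine ⟨fun j => if a ≤ j.val then ψ j else 0, ?_, ?_⟩
  · rw [mem_SI]
    intro j hj
    refine ⟨?_, j.isLt⟩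
    by_contra hc
    apply hj
    beta_reduce
    rw [if_neg hc]
  · funext i
    unfold Matrix.mulVec dotProduct
    refine Finset.sum_congr rfl fun j _ => ?_
    unfold blk
    beta_reduce
    by_cases hj : a ≤ j.val
    · rw [if_pos hj]
    · rw [if_neg (fun h : i.val < a ∧ a ≤ j.val => hj h.2), zero_mul, zero_mul]

end Pool.Agent.Helper8.UT
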