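import Pool.Agent.Helper8.UT.Semi

/-!
The upper triangular walk over the field with two elements: elementary matrices, rows, the
anti-transpose, middle blocks, and the rank of the north-east block.
-/

set_option autoImplicit false
set_option linter.unusedSectionVars false

namespace Pool.Agent.Helper8.UT

open Finset

/-- matrices over the field with two elements -/
abbrev MM (N : ℕ) := Matrix (Fin N) (Fin N) (ZMod 2)

variable {N : ℕ}

/-- the elementary matrix adding row `i+1` to row `i` (the identity if `i` is the last row) -/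
def xg (i : Fin N) : MM N :=
  1 + Matrix.of fun a b => if a = i ∧ b.val = i.val + 1 then (1 : ZMod 2) else 0

/-- left step -/
def stl (i : Fin N) (A : MM N) : MM N := xg i * A

/-- right step -/
def strr (i : Fin N) (A : MM N) : MM N := A * xg i

/-- row `m` (zero if out of range) -/
def rowN (A : MM N) (m : ℕ) : Fin N → ZMod 2 := fun b => if h : m < N then A ⟨m, h⟩ b else 0

theorem rowN_fin (A : MM N) (i : Fin N) : rowN A i.val = A i := by
  funext b
  simp [rowN]

theorem stl_apply (i : Fin N) (A : MM N) (a b : Fin N) :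
    stl i A a b = A a b + if a = i then rowN A (i.val + 1) b else 0 := by
  unfold stl xg
  rw [Matrix.add_mul, Matrix.one_mul, Matrix.add_apply]
  congr 1
  rw [Matrix.mul_apply]
  by_cases ha : a = i
  · subst ha
    simp only [Matrix.of_apply, true_and, if_true]
    by_cases h : a.val + 1 < N
    · rw [Finset.sum_eq_single (⟨a.val + 1, h⟩ : Fin N)]
      · simp [rowN, h]
      · intro c _ hc
        have : c.val ≠ a.val + 1 := fun h' => hc (Fin.ext h')
        simp [this]
      · simp
    · rw [Finset.sum_eq_zero]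
      · simp [rowN, h]
      · intro c _
        have : c.val ≠ a.val + 1 := by have := c.isLt; omega
        simp [this]
  · simp [ha]

theorem rowN_stl (i : Fin N) (A : MM N) (m : ℕ) :
    rowN (stl i A) m = rowN A m + if m = i.val then rowN A (i.val + 1) else 0 := by
  funext b
  rw [Pi.add_apply]
  by_cases hm : m < N
  · have h1 : rowN (stl i A) m b = stl i A ⟨m, hm⟩ b := by simp [rowN, hm]
    have h2 : rowN A m b = A ⟨m, hm⟩ b := by simp [rowN, hm]
    rw [h1, h2, stl_apply]
    congr 1
    by_cases h : m = i.val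
    · have : (⟨m, hm⟩ : Fin N) = i := Fin.ext h
      simp [h]
    · have : (⟨m, hm⟩ : Fin N) ≠ i := fun h' => h (congrArg Fin.val h')
      simp [h, this]
  · have h : m ≠ i.val := by have := i.isLt; omega
    simp [rowN, hm, h]

theorem rowN_stl_of_ne (i : Fin N) (A : MM N) {m : ℕ} (h : m ≠ i.val) :
    rowN (stl i A) m = rowN A m := by
  rw [rowN_stl]; simp [h]

theorem rowN_stl_self (i : Fin N) (A : MM N) :
    rowN (stl i A) i.val = rowN A i.val + rowN A (i.val + 1) := by
  rw [rowN_stl]; simp

/-- upper unitriangular matrices -/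
def UTS (N : ℕ) : Set (MM N) := {A | (∀ i, A i i = 1) ∧ ∀ i j, j < i → A i j = 0}

theorem one_mem_UTS : (1 : MM N) ∈ UTS N := by
  refine ⟨fun i => by simp, fun i j h => ?_⟩
  rw [Matrix.one_apply_ne (ne_of_gt h)]

theorem rowN_UTS {A : MM N} (hA : A ∈ UTS N) {m : ℕ} {b : Fin N} (h : b.val < m) :
    rowN A m b = 0 := by
  unfold rowN
  split_ifs with hm
  · exact hA.2 ⟨m, hm⟩ b h
  · rfl

theorem Clo_UTS : Clo (stl (N := N)) (UTS N) := by
  intro i A hA
  refine ⟨fun a => ?_, fun a b hab => ?_⟩
  · rw [stl_apply, hA.1 a]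
    by_cases h : a = i
    · subst h
      rw [if_pos rfl, rowN_UTS hA (Nat.lt_succ_self _), add_zero]
    · rw [if_neg h, add_zero]
  · rw [stl_apply, hA.2 a b hab]
    by_cases h : a = i
    · subst h
      rw [if_pos rfl, rowN_UTS hA (Nat.lt_succ_of_lt hab), add_zero]
    · rw [if_neg h, add_zero]

/-- expectation at time `t` started from the identity -/
noncomputable def EE (N : ℕ) (t : ℝ) (f : MM N → ℝ) : ℝ := Sg (stl (N := N)) t f 1

/-! left and right -/

theorem gen_comm (f : MM N → ℝ) :
    gen (stl (N := N)) (gen (strr (N := N)) f) = gen (strr (N := N)) (gen (stl (N := N)) f) := by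
  funext A
  unfold gen
  simp only [Finset.mul_sum, ← Finset.sum_sub_distrib]
  rw [Finset.sum_comm]
  refine Finset.sum_congr rfl fun i _ => Finset.sum_congr rfl fun j _ => ?_
  have : strr i (stl j A) = stl j (strr i A) := by
    unfold strr stl
    rw [Matrix.mul_assoc]
  rw [this]
  ring

theorem gen_one (f : MM N → ℝ) : gen (stl (N := N)) f 1 = gen (strr (N := N)) f 1 := by
  unfold gen
  congr 1
  refine Finset.sum_congr rfl fun i _ => ?_
  have : stl i (1 : MM N) = strr i 1 := by
    unfold strr stl
    rw [Matrix.one_mul, Matrix.mul_one]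
  rw [this]

theorem gen_iter_comm (k : ℕ) (f : MM N → ℝ) :
    gen (strr (N := N)) ((gen (stl (N := N)))^[k] f) =
      (gen (stl (N := N)))^[k] (gen (strr (N := N)) f) := by
  induction k with
  | zero => rfl
  | succ k ih =>
    rw [Function.iterate_succ_apply', Function.iterate_succ_apply', ← ih, gen_comm]

theorem iter_one (k : ℕ) : ∀ f : MM N → ℝ,
    (gen (stl (N := N)))^[k] f 1 = (gen (strr (N := N)))^[k] f 1 := by
  induction k with
  | zero => intro f; rfl
  | succ k ih =>
    intro f
    rw [Function.iterate_succ_apply', gen_one, gen_iter_comm, ih, Function.iterate_succ_apply]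

/-- the anti-transpose -/
def flip (A : MM N) : MM N := fun i j => A j.rev i.rev

theorem flip_one : flip (1 : MM N) = 1 := by
  funext i j
  unfold flip
  by_cases h : i = j
  · subst h; simp
  · rw [Matrix.one_apply_ne h, Matrix.one_apply_ne]
    intro h'
    exact h (Fin.rev_injective h').symm

theorem flip_mul (A B : MM N) : flip (A * B) = flip B * flip A := by
  funext i j
  unfold flip
  rw [Matrix.mul_apply, Matrix.mul_apply]
  rw [← Equiv.sum_comp Fin.revPerm]
  refine Finset.sum_congr rfl fun k _ => ?_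
  simp only [Fin.revPerm_apply]
  rw [mul_comm]

/-- letter reversal -/
def sig (i : Fin N) : Fin N := if h : i.val + 1 < N then ⟨N - 2 - i.val, by omega⟩ else i

theorem sig_inv : Function.Involutive (sig (N := N)) := by
  intro i
  unfold sig
  by_cases h : i.val + 1 < N
  · rw [dif_pos h]
    have h2 : N - 2 - i.val + 1 < N := by omega
    rw [dif_pos h2]
    apply Fin.ext
    simp only
    omega
  · rw [dif_neg h, dif_neg h]

theorem flip_xg (i : Fin N) : flip (xg i) = xg (sig i) := by
  funext a b
  unfold flip xg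
  rw [Matrix.add_apply, Matrix.add_apply]
  have h1 : (1 : MM N) b.rev a.rev = (1 : MM N) a b := by
    have := congrFun (congrFun (flip_one (N := N)) a) b
    exact this
  rw [h1]
  congr 1
  simp only [Matrix.of_apply]
  congr 1
  rw [Fin.ext_iff, Fin.val_rev, Fin.val_rev, Fin.ext_iff]
  unfold sig
  have ha := a.isLt
  have hb := b.isLt
  have hi := i.isLt
  by_cases h : i.val + 1 < N
  · rw [dif_pos h]
    simp only [eq_iff_iff]
    constructor
    · rintro ⟨h1, h2⟩
      constructor <;> omega
    · rintro ⟨h1, h2⟩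
      constructor <;> omega
  · rw [dif_neg h]
    simp only [eq_iff_iff]
    constructor
    · rintro ⟨h1, h2⟩
      constructor <;> omega
    · rintro ⟨h1, h2⟩
      constructor <;> omega

theorem EE_flip (t : ℝ) (f : MM N → ℝ) : EE N t (fun A => f (flip A)) = EE N t f := by
  unfold EE
  have h := Sg_eq_of_iter (stl (N := N)) (stl (N := N)) (fun A => f (flip A)) f 1 1 1 t ?_
  · rw [h, one_mul]
  · intro k
    rw [one_mul, iter_one k f]
    have := iter_intertwine (stX := stl (N := N)) (stY := strr (N := N)) flip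
      (Clo_univ (stl (N := N))) (fun g A _ => ?_) k f 1 trivial
    · rw [this, flip_one]
    · unfold gen
      congr 1
      rw [← Equiv.sum_comp (sig_inv (N := N)).toPerm]
      refine Finset.sum_congr rfl fun i _ => ?_
      have e : flip (stl (sig i) A) = strr i (flip A) := by
        unfold stl strr
        rw [flip_mul, flip_xg, sig_inv]
      simp only [Function.Involutive.coe_toPerm]
      rw [e]

/-- middle block -/
def mid (s n : ℕ) (h : s + n ≤ N) (A : MM N) : MM n :=
  fun i j => A ⟨s + i.val, by omega⟩ ⟨s + j.val, by omega⟩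

theorem mid_one (s n : ℕ) (h : s + n ≤ N) : mid s n h (1 : MM N) = 1 := by
  funext i j
  unfold mid
  by_cases hij : i = j
  · subst hij; simp
  · rw [Matrix.one_apply_ne hij, Matrix.one_apply_ne]
    intro h'
    apply hij
    have := congrArg Fin.val h'
    simp only at this
    exact Fin.ext (by omega)

theorem mid_stl_in (s n : ℕ) (h : s + n ≤ N) {A : MM N} (hA : A ∈ UTS N) (k : Fin n) :
    mid s n h (stl (⟨s + k.val, by omega⟩ : Fin N) A) = stl k (mid s n h A) := by
  funext i j
  rw [stl_apply]
  unfold mid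
  rw [stl_apply]
  congr 1
  by_cases hik : i = k
  · subst hik
    rw [if_pos rfl, if_pos rfl]
    unfold rowN
    by_cases h1 : i.val + 1 < n
    · have h2 : s + i.val + 1 < N := by omega
      simp only [h1, h2, dif_pos]
      rfl
    · simp only [h1, dif_neg, not_false_eq_true]
      split_ifs with h2
      · apply hA.2
        change s + j.val < s + i.val + 1
        have := j.isLt
        omega
      · rfl
  · rw [if_neg hik, if_neg]
    intro h'
    apply hik
    have := congrArg Fin.val h'
    simp only at this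
    exact Fin.ext (by omega)

theorem mid_stl_out (s n : ℕ) (h : s + n ≤ N) (A : MM N) (k : Fin N)
    (hk : ∀ j : Fin n, (⟨s + j.val, by omega⟩ : Fin N) ≠ k) :
    mid s n h (stl k A) = mid s n h A := by
  funext i j
  unfold mid
  rw [stl_apply, if_neg (hk i), add_zero]

theorem EE_mid (s n : ℕ) (h : s + n ≤ N) (t : ℝ) (g : MM n → ℝ) :
    EE N t (fun A => g (mid s n h A)) = EE n t g := by
  unfold EE
  rw [Sg_intertwine (stX := stl (N := N)) (stY := stl (N := n)) (mid s n h) Clo_UTS
    (fun g A hA => ?_) g t 1 one_mem_UTS, mid_one]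
  unfold gen
  congr 1
  symm
  refine Fintype.sum_of_injective (fun k : Fin n => (⟨s + k.val, by omega⟩ : Fin N)) ?_ _ _ ?_ ?_
  · intro a b hab
    have := congrArg Fin.val hab
    simp only at this
    exact Fin.ext (by omega)
  · intro k hk
    beta_reduce
    rw [mid_stl_out s n h A k (fun j hj => hk ⟨j, hj⟩), sub_self]
  · intro k
    beta_reduce
    rw [mid_stl_in s n h hA k]

/-! the north-east block and its rank -/

/-- the block of rows below `a`, columns from `a` on (the other entries are set to zero) -/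
def blk (a : ℕ) (A : MM N) : MM N := fun i j => if i.val < a ∧ a ≤ j.val then A i j else 0

/-- rank of the block -/
noncomputable def rk (a : ℕ) (A : MM N) : ℕ := (blk a A).rank

theorem blk_eq (a : ℕ) (A : MM N) : blk a A =
    Matrix.diagonal (fun i : Fin N => if i.val < a then (1 : ZMod 2) else 0) * A *
      Matrix.diagonal (fun j : Fin N => if a ≤ j.val then (1 : ZMod 2) else 0) := by
  funext i j
  rw [Matrix.mul_diagonal, Matrix.diagonal_mul]
  unfold blk
  by_cases h1 : i.val < a <;> by_cases h2 : a ≤ j.val <;> simp [h1, h2]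

theorem pq_mul {P Q A B : MM N} (h1 : P + Q = 1) :
    P * (A * B) * Q = P * A * P * B * Q + P * A * Q * B * Q := by
  have h3 : P * (A * B) * Q = P * A * (P + Q) * B * Q := by
    rw [h1, Matrix.mul_one, Matrix.mul_assoc P A B]
  rw [h3, Matrix.mul_add, Matrix.add_mul, Matrix.add_mul]

theorem pq_mul2 {P Q A B : MM N} (h1 : P + Q = 1) (h2 : P * P = P) :
    P * (A * B) * Q = (P * A * P) * (P * B * Q) + (P * A * Q) * (B * Q) := by
  rw [pq_mul h1]
  have e1 : (P * A * P) * (P * B * Q) = P * A * (P * P) * B * Q := by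
    simp only [Matrix.mul_assoc]
  have e2 : (P * A * Q) * (B * Q) = P * A * Q * B * Q := by
    simp only [Matrix.mul_assoc]
  rw [e1, e2, h2]

theorem mrank_add_le (A B : MM N) : (A + B).rank ≤ A.rank + B.rank := by
  unfold Matrix.rank
  rw [Matrix.mulVecLin_add]
  refine (Submodule.finrank_mono (LinearMap.range_add_le _ _)).trans ?_
  exact Submodule.finrank_add_le_finrank_add_finrank _ _

theorem rk_mul (a : ℕ) (A B : MM N) : rk a (A * B) ≤ rk a A + rk a B := by
  unfold rk
  have h1 : Matrix.diagonal (fun i : Fin N => if i.val < a then (1 : ZMod 2) else 0) +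
      Matrix.diagonal (fun j : Fin N => if a ≤ j.val then (1 : ZMod 2) else 0) = 1 := by
    rw [Matrix.diagonal_add, ← Matrix.diagonal_one]
    congr 1
    funext i
    by_cases h : i.val < a
    · have : ¬ a ≤ i.val := by omega
      simp [h]
    · have : a ≤ i.val := by omega
      simp [this]
  have h2 : Matrix.diagonal (fun i : Fin N => if i.val < a then (1 : ZMod 2) else 0) *
      Matrix.diagonal (fun i : Fin N => if i.val < a then (1 : ZMod 2) else 0) =
      Matrix.diagonal (fun i : Fin N => if i.val < a then (1 : ZMod 2) else 0) := by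
    rw [Matrix.diagonal_mul_diagonal]
    congr 1
    funext i
    by_cases h : i.val < a <;> simp [h]
  rw [blk_eq a (A * B), pq_mul2 h1 h2, ← blk_eq, ← blk_eq]
  refine (mrank_add_le _ _).trans ?_
  rw [add_comm]
  exact add_le_add (Matrix.rank_mul_le_left _ _) (Matrix.rank_mul_le_right _ _)

theorem rk_one (a : ℕ) : rk a (1 : MM N) = 0 := by
  unfold rk
  have : blk a (1 : MM N) = 0 := by
    funext i j
    unfold blk
    split_ifs with h
    · rw [Matrix.one_apply_ne]
      · rfl
      · intro h'
        subst h'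
        omega
    · rfl
  rw [this, Matrix.rank_zero]

theorem rk_xg (a : ℕ) (i : Fin N) : rk a (xg i) ≤ if i.val + 1 = a then 1 else 0 := by
  unfold rk
  have : blk a (xg i) = Matrix.vecMulVec (fun p : Fin N => if i.val + 1 = a ∧ p = i then (1 : ZMod 2) else 0)
      (fun q : Fin N => if q.val = a then (1 : ZMod 2) else 0) := by
    funext p q
    unfold blk
    rw [Matrix.vecMulVec_apply]
    unfold xg
    rw [Matrix.add_apply, Matrix.of_apply, Matrix.one_apply]
    by_cases h1 : p.val < a ∧ a ≤ q.val
    · rw [if_pos h1]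
      have hpq : p ≠ q := by
        rintro rfl
        omega
      rw [if_neg hpq, zero_add]
      by_cases h2 : p = i ∧ q.val = i.val + 1
      · obtain ⟨rfl, h3⟩ := h2
        have h4 : p.val + 1 = a := by omega
        have h5 : q.val = a := by omega
        simp [h3, h4]
      · rw [if_neg h2]
        by_cases h3 : i.val + 1 = a ∧ p = i
        · have h4 : q.val ≠ a := by
            intro h5
            exact h2 ⟨h3.2, by omega⟩
          simp [h4]
        · simp [h3]
    · rw [if_neg h1]
      by_cases h3 : i.val + 1 = a ∧ p = i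
      · have h4 : q.val ≠ a := by
          intro h5
          apply h1
          obtain ⟨h6, rfl⟩ := h3
          omega
        simp [h4]
      · simp [h3]
  rw [this]
  split_ifs with h
  · exact Matrix.rank_vecMulVec_le _ _
  · have : (fun p : Fin N => if i.val + 1 = a ∧ p = i then (1 : ZMod 2) else 0) = 0 := by
      funext p
      simp [h]
    rw [this, Matrix.zero_vecMulVec, Matrix.rank_zero]

theorem rk_stl (a : ℕ) (i : Fin N) (A : MM N) :
    rk a (stl i A) ≤ rk a A + if i.val + 1 = a then 1 else 0 := by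
  unfold stl
  refine (rk_mul a _ _).trans ?_
  rw [add_comm]
  exact add_le_add le_rfl (rk_xg a i)

theorem EE_semi_le {N : ℕ} (s t : ℝ) (hs : 0 ≤ s) (f g : MM N → ℝ)
    (hfg : ∀ A, Sg (stl (N := N)) t f A ≤ g A) :
    EE N (s + t) f ≤ EE N s g := by
  unfold EE
  rw [Sg_semi]
  exact Sg_mono (Clo_univ _) (fun A _ => hfg A) s hs 1 trivial

/-- right translation -/
theorem Sg_right (t : ℝ) (f : MM N → ℝ) (A : MM N) :
    Sg (stl (N := N)) t f A = EE N t (fun B => f (B * A)) := by
  unfold EE
  have := Sg_intertwine (stX := stl (N := N)) (stY := stl (N := N)) (fun B => B * A)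
    (Clo_univ (stl (N := N))) (fun g B _ => ?_) f t 1 trivial
  · rw [this, Matrix.one_mul]
  · unfold gen
    congr 1
    refine Finset.sum_congr rfl fun i _ => ?_
    unfold stl
    beta_reduce
    rw [Matrix.mul_assoc]

theorem EE_le_one {t : ℝ} (ht : 0 ≤ t) {f : MM N → ℝ} {c : ℝ} (h : ∀ A, f A ≤ c) :
    EE N t f ≤ c := Sg_le_const (Clo_univ _) (fun A _ => h A) t ht 1 trivial

theorem EE_nonneg {t : ℝ} (ht : 0 ≤ t) {f : MM N → ℝ} (h : ∀ A, 0 ≤ f A) :
    0 ≤ EE N t f := Sg_nonneg (Clo_univ _) (fun A _ => h A) t ht 1 trivial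

theorem EE_mono {t : ℝ} (ht : 0 ≤ t) {f g : MM N → ℝ} (h : ∀ A ∈ UTS N, f A ≤ g A) :
    EE N t f ≤ EE N t g := Sg_mono Clo_UTS (fun A hA => h A hA) t ht 1 one_mem_UTS

theorem EE_const {t : ℝ} (ht : 0 ≤ t) (c : ℝ) : EE N t (fun _ => c) = c :=
  Sg_const _ t ht c 1

theorem EE_rk_add (a : ℕ) (s t : ℝ) (hs : 0 ≤ s) (ht : 0 ≤ t) :
    EE N (s + t) (fun A => (rk a A : ℝ)) ≤
      EE N s (fun A => (rk a A : ℝ)) + EE N t (fun A => (rk a A : ℝ)) := by
  have h1 : ∀ A : MM N, Sg (stl (N := N)) t (fun A => (rk a A : ℝ)) A ≤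
      (rk a A : ℝ) + EE N t (fun A => (rk a A : ℝ)) := by
    intro A
    rw [Sg_right]
    have h2 : EE N t (fun B => (rk a (B * A) : ℝ)) ≤ EE N t (fun B => (rk a B : ℝ) + (rk a A : ℝ)) :=
      EE_mono ht fun B _ => by exact_mod_cast rk_mul a B A
    refine h2.trans ?_
    unfold EE
    rw [Sg_add_apply _ t (fun B => (rk a B : ℝ)) (fun _ => (rk a A : ℝ)), Sg_const _ t ht, add_comm]
  refine (EE_semi_le s t hs _ _ h1).trans ?_
  unfold EE
  rw [Sg_add_apply _ s (fun B => (rk a B : ℝ)) (fun _ => _), Sg_const _ s hs]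

theorem EE_exp_add (a : ℕ) (θ s t : ℝ) (hθ : 0 ≤ θ) (hs : 0 ≤ s) (ht : 0 ≤ t) :
    EE N (s + t) (fun A => Real.exp (θ * (rk a A : ℝ))) ≤
      EE N s (fun A => Real.exp (θ * (rk a A : ℝ))) * EE N t (fun A => Real.exp (θ * (rk a A : ℝ))) := by
  have h1 : ∀ A : MM N, Sg (stl (N := N)) t (fun A => Real.exp (θ * (rk a A : ℝ))) A ≤
      EE N t (fun A => Real.exp (θ * (rk a A : ℝ))) * Real.exp (θ * (rk a A : ℝ)) := by
    intro A
    rw [Sg_right]
    have h2 : EE N t (fun B => Real.exp (θ * (rk a (B * A) : ℝ))) ≤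
        EE N t (fun B => Real.exp (θ * (rk a A : ℝ)) * Real.exp (θ * (rk a B : ℝ))) :=
      EE_mono ht fun B _ => by
        rw [← Real.exp_add, ← mul_add]
        refine Real.exp_le_exp.2 (mul_le_mul_of_nonneg_left ?_ hθ)
        have := rk_mul a B A
        rw [add_comm]
        exact_mod_cast this
    refine h2.trans ?_
    unfold EE
    rw [Sg_mul_apply, mul_comm]
  refine (EE_semi_le s t hs _ _ h1).trans ?_
  unfold EE
  rw [Sg_mul_apply, mul_comm]

theorem EE_exp_le (a : ℕ) (θ t : ℝ) (hθ : 0 ≤ θ) (ht : 0 ≤ t) :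
    EE N t (fun A => Real.exp (θ * (rk a A : ℝ))) ≤ Real.exp ((Real.exp θ - 1) / 2 * t) := by
  have h := Sg_le_of_gen_le (Clo_univ (stl (N := N))) (fun A => Real.exp (θ * (rk a A : ℝ)))
    ((Real.exp θ - 1) / 2) (fun A _ => ?_) t ht 1 trivial
  · unfold EE
    refine h.trans ?_
    simp only [rk_one, Nat.cast_zero, mul_zero, Real.exp_zero, mul_one, le_refl]
  · unfold gen
    have hle : ∀ i : Fin N, Real.exp (θ * (rk a (stl i A) : ℝ)) - Real.exp (θ * (rk a A : ℝ)) ≤
        if i.val + 1 = a then (Real.exp θ - 1) * Real.exp (θ * (rk a A : ℝ)) else 0 := by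
      intro i
      have h1 := rk_stl a i A
      split_ifs with hi
      · rw [if_pos hi] at h1
        have h2 : Real.exp (θ * (rk a (stl i A) : ℝ)) ≤ Real.exp θ * Real.exp (θ * (rk a A : ℝ)) := by
          rw [← Real.exp_add]
          refine Real.exp_le_exp.2 ?_
          have h3 : (rk a (stl i A) : ℝ) ≤ (rk a A : ℝ) + 1 := by exact_mod_cast h1
          nlinarith [mul_le_mul_of_nonneg_left h3 hθ]
        linarith
      · rw [if_neg hi] at h1
        have h2 : Real.exp (θ * (rk a (stl i A) : ℝ)) ≤ Real.exp (θ * (rk a A : ℝ)) := by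
          refine Real.exp_le_exp.2 (mul_le_mul_of_nonneg_left ?_ hθ)
          exact_mod_cast h1
        linarith
    have h2 : ∑ i : Fin N, (Real.exp (θ * (rk a (stl i A) : ℝ)) - Real.exp (θ * (rk a A : ℝ))) ≤
        (Real.exp θ - 1) * Real.exp (θ * (rk a A : ℝ)) := by
      refine (Finset.sum_le_sum fun i _ => hle i).trans ?_
      have hnn : 0 ≤ (Real.exp θ - 1) * Real.exp (θ * (rk a A : ℝ)) := by
        have : 1 ≤ Real.exp θ := Real.one_le_exp hθ
        have h0 := (Real.exp_pos (θ * (rk a A : ℝ))).le
        exact mul_nonneg (by linarith) h0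
      rw [← Finset.sum_filter, Finset.sum_const]
      have hc : (Finset.univ.filter fun i : Fin N => i.val + 1 = a).card ≤ 1 := by
        refine Finset.card_le_one.2 fun x hx y hy => ?_
        rw [Finset.mem_filter] at hx hy
        exact Fin.ext (by omega)
      rw [nsmul_eq_mul]
      have : ((Finset.univ.filter fun i : Fin N => i.val + 1 = a).card : ℝ) ≤ 1 := by
        exact_mod_cast hc
      nlinarith
    linarith

end Pool.Agent.Helper8.UT
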