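import Mathlib

/-!
Finite-state rate one-half jump semigroups: `gen` and `Sg`.
-/

set_option autoImplicit false
set_option linter.unusedSectionVars false

namespace Pool.Agent.Helper8.UT

open Finset

section Semi

variable {X Y κ ι : Type*} [Fintype X] [Fintype Y] [Fintype κ] [Fintype ι]

/-- generator: every letter `l` rings at rate one half and then moves `x` to `st l x` -/
noncomputable def gen (st : κ → X → X) (f : X → ℝ) : X → ℝ :=
  fun x => (1 / 2 : ℝ) * ∑ l, (f (st l x) - f x)

theorem gen_add (st : κ → X → X) (f g : X → ℝ) : gen st (f + g) = gen st f + gen st g := by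
  funext x
  simp only [gen, Pi.add_apply]
  rw [← mul_add, ← Finset.sum_add_distrib]
  congr 1
  refine Finset.sum_congr rfl fun l _ => ?_
  ring

theorem gen_smul (st : κ → X → X) (c : ℝ) (f : X → ℝ) : gen st (c • f) = c • gen st f := by
  funext x
  simp only [gen, Pi.smul_apply, smul_eq_mul]
  rw [Finset.mul_sum, Finset.mul_sum, Finset.mul_sum]
  refine Finset.sum_congr rfl fun l _ => ?_
  ring

/-- the generator as a continuous linear map -/
noncomputable def genL (st : κ → X → X) : (X → ℝ) →L[ℝ] (X → ℝ) :=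
  LinearMap.toContinuousLinearMap
    { toFun := gen st
      map_add' := gen_add st
      map_smul' := gen_smul st }

theorem genL_apply (st : κ → X → X) (f : X → ℝ) : genL st f = gen st f := rfl

/-- the semigroup -/
noncomputable def Sg (st : κ → X → X) (t : ℝ) (f : X → ℝ) : X → ℝ :=
  (NormedSpace.exp (t • genL st)) f

theorem Sg_zero (st : κ → X → X) (f : X → ℝ) : Sg st 0 f = f := by
  unfold Sg
  rw [zero_smul, NormedSpace.exp_zero]
  rfl

theorem Sg_semi (st : κ → X → X) (s t : ℝ) (f : X → ℝ) :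
    Sg st (s + t) f = Sg st s (Sg st t f) := by
  unfold Sg
  let _ : NormedAlgebra ℚ ((X → ℝ) →L[ℝ] (X → ℝ)) :=
    NormedAlgebra.restrictScalars ℚ ℝ ((X → ℝ) →L[ℝ] (X → ℝ))
  rw [add_smul, NormedSpace.exp_add_of_commute]
  · rfl
  · exact (Commute.refl _).smul_left s |>.smul_right t

theorem Sg_add (st : κ → X → X) (t : ℝ) (f g : X → ℝ) :
    Sg st t (f + g) = Sg st t f + Sg st t g := by
  unfold Sg
  exact map_add _ f g

theorem Sg_sub (st : κ → X → X) (t : ℝ) (f g : X → ℝ) :
    Sg st t (f - g) = Sg st t f - Sg st t g := by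
  unfold Sg
  exact map_sub _ f g

theorem Sg_smul (st : κ → X → X) (t : ℝ) (c : ℝ) (f : X → ℝ) :
    Sg st t (c • f) = c • Sg st t f := by
  unfold Sg
  exact map_smul _ c f

theorem Sg_sum {α : Type*} (st : κ → X → X) (t : ℝ) (s : Finset α) (f : α → X → ℝ) :
    Sg st t (∑ a ∈ s, f a) = ∑ a ∈ s, Sg st t (f a) := by
  unfold Sg
  exact map_sum _ f s

theorem Sg_add_apply (st : κ → X → X) (t : ℝ) (f g : X → ℝ) (x : X) :
    Sg st t (fun y => f y + g y) x = Sg st t f x + Sg st t g x :=
  congrFun (Sg_add st t f g) x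

theorem Sg_sub_apply (st : κ → X → X) (t : ℝ) (f g : X → ℝ) (x : X) :
    Sg st t (fun y => f y - g y) x = Sg st t f x - Sg st t g x :=
  congrFun (Sg_sub st t f g) x

theorem Sg_mul_apply (st : κ → X → X) (t : ℝ) (c : ℝ) (f : X → ℝ) (x : X) :
    Sg st t (fun y => c * f y) x = c * Sg st t f x :=
  congrFun (Sg_smul st t c f) x

theorem Sg_sum_apply {α : Type*} (st : κ → X → X) (t : ℝ) (s : Finset α) (f : α → X → ℝ)
    (x : X) :
    Sg st t (fun y => ∑ a ∈ s, f a y) x = ∑ a ∈ s, Sg st t (f a) x := by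
  have h := congrFun (Sg_sum st t s f) x
  rw [Finset.sum_apply] at h
  rw [← h]
  congr 1
  funext y
  rw [Finset.sum_apply]

theorem clm_series (A : (X → ℝ) →L[ℝ] (X → ℝ)) (f : X → ℝ) (x : X) :
    HasSum (fun k : ℕ => ((k.factorial : ℝ)⁻¹) * ((A ^ k) f x)) ((NormedSpace.exp A) f x) := by
  have h := NormedSpace.exp_series_hasSum_exp' (𝕂 := ℝ) A
  have h2 := (ContinuousLinearMap.apply ℝ (X → ℝ) f).hasSum h
  have h3 := (ContinuousLinearMap.proj (R := ℝ) (φ := fun _ : X => ℝ) x).hasSum h2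
  exact h3

/-- power series with a shift -/
theorem Sg_series (st : κ → X → X) (c t : ℝ) (f : X → ℝ) (x : X) :
    HasSum (fun k : ℕ => Real.exp (-(c * t)) * (t ^ k / (k.factorial : ℝ) *
      ((fun g : X → ℝ => gen st g + c • g)^[k] f x))) (Sg st t f x) := by
  set P : (X → ℝ) →L[ℝ] (X → ℝ) := genL st + c • 1 with hP
  have hpow : ∀ (k : ℕ) (g : X → ℝ), (P ^ k) g = (fun g : X → ℝ => gen st g + c • g)^[k] g := by
    intro k
    induction k with
    | zero => intro g; rfl
    | succ k ih =>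
      intro g
      rw [pow_succ, Function.iterate_succ_apply]
      exact ih (P g)
  have h1 := clm_series (t • P) f x
  have h2 : ∀ k : ℕ, ((k.factorial : ℝ)⁻¹) * (((t • P) ^ k) f x) =
      t ^ k / (k.factorial : ℝ) * ((fun g : X → ℝ => gen st g + c • g)^[k] f x) := by
    intro k
    rw [smul_pow]
    have : ((t ^ k • P ^ k) f) x = t ^ k * ((P ^ k) f x) := rfl
    rw [this, hpow]
    ring
  have h3 : HasSum (fun k : ℕ => t ^ k / (k.factorial : ℝ) *
      ((fun g : X → ℝ => gen st g + c • g)^[k] f x)) ((NormedSpace.exp (t • P)) f x) := by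
    have := h1
    simp only [h2] at this
    exact this
  have h4 : NormedSpace.exp (t • genL st) = Real.exp (-(c * t)) • NormedSpace.exp (t • P) := by
    let _ : NormedAlgebra ℚ ((X → ℝ) →L[ℝ] (X → ℝ)) :=
      NormedAlgebra.restrictScalars ℚ ℝ ((X → ℝ) →L[ℝ] (X → ℝ))
    have e1 : t • genL st = algebraMap ℝ ((X → ℝ) →L[ℝ] (X → ℝ)) (-(c * t)) + t • P := by
      rw [hP, Algebra.algebraMap_eq_smul_one, smul_add, smul_smul, neg_smul]
      rw [mul_comm c t]
      abel
    rw [e1, NormedSpace.exp_add_of_commute]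
    · rw [← NormedSpace.algebraMap_exp_comm, Algebra.algebraMap_eq_smul_one, smul_mul_assoc,
        one_mul, Real.exp_eq_exp_ℝ]
    · exact Algebra.commutes _ _
  have h5 : Sg st t f x = Real.exp (-(c * t)) * ((NormedSpace.exp (t • P)) f x) := by
    unfold Sg
    rw [h4]
    rfl
  rw [h5]
  exact h3.mul_left _

theorem Sg_eq_of_iter (stX : κ → X → X) (stY : ι → Y → Y) (f : X → ℝ) (g : Y → ℝ) (x : X) (y : Y)
    (a t : ℝ) (h : ∀ k, (gen stX)^[k] f x = a * (gen stY)^[k] g y) :
    Sg stX t f x = a * Sg stY t g y := by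
  have h1 := Sg_series stX 0 t f x
  have h2 := (Sg_series stY 0 t g y).mul_left a
  have e1 : (fun g : X → ℝ => gen stX g + (0 : ℝ) • g) = gen stX := by
    funext g; simp
  have e2 : (fun g : Y → ℝ => gen stY g + (0 : ℝ) • g) = gen stY := by
    funext g; simp
  rw [e1] at h1
  rw [e2] at h2
  refine h1.unique ?_
  have e3 : (fun k : ℕ => Real.exp (-(0 * t)) * (t ^ k / (k.factorial : ℝ) *
      ((gen stX)^[k] f x))) = fun k : ℕ => a * (Real.exp (-(0 * t)) * (t ^ k /
        (k.factorial : ℝ) * ((gen stY)^[k] g y))) := by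
    funext k
    rw [h k]; ring
  rw [e3]
  exact h2

/-- closed set -/
def Clo (st : κ → X → X) (S : Set X) : Prop := ∀ l x, x ∈ S → st l x ∈ S

theorem gen_congr_on {st : κ → X → X} {S : Set X} (hS : Clo st S) {f g : X → ℝ}
    (h : ∀ x ∈ S, f x = g x) : ∀ x ∈ S, gen st f x = gen st g x := by
  intro x hx
  unfold gen
  congr 1
  refine Finset.sum_congr rfl fun l _ => ?_
  rw [h _ (hS l x hx), h x hx]

theorem iter_intertwine {stX : κ → X → X} {stY : ι → Y → Y} (φ : X → Y) {S : Set X}
    (hS : Clo stX S) (h : ∀ (g : Y → ℝ), ∀ x ∈ S, gen stX (fun z => g (φ z)) x = gen stY g (φ x)) :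
    ∀ (k : ℕ) (g : Y → ℝ), ∀ x ∈ S, (gen stX)^[k] (fun z => g (φ z)) x = (gen stY)^[k] g (φ x) := by
  intro k
  induction k with
  | zero => intro g x hx; rfl
  | succ k ih =>
    intro g x hx
    rw [Function.iterate_succ_apply', Function.iterate_succ_apply',
      gen_congr_on hS (fun z hz => ih g z hz) x hx]
    exact h _ x hx

theorem Sg_intertwine {stX : κ → X → X} {stY : ι → Y → Y} (φ : X → Y) {S : Set X}
    (hS : Clo stX S) (h : ∀ (g : Y → ℝ), ∀ x ∈ S, gen stX (fun z => g (φ z)) x = gen stY g (φ x))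
    (g : Y → ℝ) (t : ℝ) (x : X) (hx : x ∈ S) :
    Sg stX t (fun z => g (φ z)) x = Sg stY t g (φ x) := by
  have := Sg_eq_of_iter stX stY (fun z => g (φ z)) g x (φ x) 1 t
    (fun k => by rw [one_mul]; exact iter_intertwine φ hS h k g x hx)
  rw [this, one_mul]

theorem shift_le {st : κ → X → X} {S : Set X} (hS : Clo st S) {c : ℝ}
    (hc : (Fintype.card κ : ℝ) / 2 ≤ c) {f g : X → ℝ} (h : ∀ x ∈ S, f x ≤ g x) :
    ∀ x ∈ S, gen st f x + c * f x ≤ gen st g x + c * g x := by
  intro x hx
  unfold gen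
  rw [Finset.sum_sub_distrib, Finset.sum_sub_distrib, Finset.sum_const, Finset.sum_const,
    Finset.card_univ, nsmul_eq_mul, nsmul_eq_mul]
  have h1 : ∑ l, f (st l x) ≤ ∑ l, g (st l x) :=
    Finset.sum_le_sum fun l _ => h _ (hS l x hx)
  have h2 : (c - (Fintype.card κ : ℝ) / 2) * f x ≤ (c - (Fintype.card κ : ℝ) / 2) * g x :=
    mul_le_mul_of_nonneg_left (h x hx) (by linarith)
  nlinarith [h1, h2]

/-- Gronwall type comparison on a closed set -/
theorem Sg_le_of_gen_le {st : κ → X → X} {S : Set X} (hS : Clo st S) (h : X → ℝ) (r : ℝ)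
    (hh : ∀ x ∈ S, gen st h x ≤ r * h x) (t : ℝ) (ht : 0 ≤ t) :
    ∀ x ∈ S, Sg st t h x ≤ Real.exp (r * t) * h x := by
  intro x hx
  set c : ℝ := (Fintype.card κ : ℝ) / 2 + |r| with hc
  have hcc : (Fintype.card κ : ℝ) / 2 ≤ c := by
    have := abs_nonneg r
    linarith
  have hrc : 0 ≤ r + c := by
    have := neg_abs_le r
    have h0 : (0 : ℝ) ≤ (Fintype.card κ : ℝ) / 2 := by positivity
    linarith
  have key : ∀ k : ℕ, ∀ y ∈ S, (fun g : X → ℝ => gen st g + c • g)^[k] h y ≤ (r + c) ^ k * h y := by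
    intro k
    induction k with
    | zero => intro y _; simp
    | succ k ih =>
      intro y hy
      rw [Function.iterate_succ_apply']
      have h1 := shift_le hS hcc ih y hy
      have h2 : gen st (fun z => (r + c) ^ k * h z) y = (r + c) ^ k * gen st h y :=
        congrFun (gen_smul st ((r + c) ^ k) h) y
      have h3 : (r + c) ^ k * gen st h y ≤ (r + c) ^ k * (r * h y) :=
        mul_le_mul_of_nonneg_left (hh y hy) (pow_nonneg hrc k)
      calc (gen st ((fun g : X → ℝ => gen st g + c • g)^[k] h) + c •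
            ((fun g : X → ℝ => gen st g + c • g)^[k] h)) y
          ≤ gen st (fun z => (r + c) ^ k * h z) y + c * ((r + c) ^ k * h y) := h1
        _ ≤ (r + c) ^ k * (r * h y) + c * ((r + c) ^ k * h y) := by rw [h2]; linarith
        _ = (r + c) ^ (k + 1) * h y := by ring
  have hs1 := Sg_series st c t h x
  have hs2 : HasSum (fun k : ℕ => Real.exp (-(c * t)) * (t ^ k / (k.factorial : ℝ) *
      ((r + c) ^ k * h x))) (Real.exp (r * t) * h x) := by
    have e := NormedSpace.exp_series_hasSum_exp' (𝕂 := ℝ) ((r + c) * t)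
    rw [← Real.exp_eq_exp_ℝ] at e
    have e2 := (e.mul_right (h x)).mul_left (Real.exp (-(c * t)))
    have e3 : Real.exp (-(c * t)) * (Real.exp ((r + c) * t) * h x) = Real.exp (r * t) * h x := by
      rw [← mul_assoc, ← Real.exp_add]
      congr 2
      ring
    rw [e3] at e2
    refine e2.congr_fun ?_
    intro k
    simp only [smul_eq_mul, mul_pow]
    ring
  refine hasSum_le (fun k => ?_) hs1 hs2
  refine mul_le_mul_of_nonneg_left ?_ (Real.exp_pos _).le
  refine mul_le_mul_of_nonneg_left (key k x hx) (by positivity)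

theorem Sg_mono {st : κ → X → X} {S : Set X} (hS : Clo st S) {f g : X → ℝ}
    (h : ∀ x ∈ S, f x ≤ g x) (t : ℝ) (ht : 0 ≤ t) :
    ∀ x ∈ S, Sg st t f x ≤ Sg st t g x := by
  intro x hx
  set c : ℝ := (Fintype.card κ : ℝ) / 2 with hc
  have key : ∀ k : ℕ, ∀ y ∈ S, (fun g : X → ℝ => gen st g + c • g)^[k] f y ≤
      (fun g : X → ℝ => gen st g + c • g)^[k] g y := by
    intro k
    induction k with
    | zero => intro y hy; exact h y hy
    | succ k ih =>
      intro y hy
      rw [Function.iterate_succ_apply', Function.iterate_succ_apply']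
      exact shift_le hS (le_refl _) ih y hy
  refine hasSum_le (fun k => ?_) (Sg_series st c t f x) (Sg_series st c t g x)
  refine mul_le_mul_of_nonneg_left ?_ (Real.exp_pos _).le
  exact mul_le_mul_of_nonneg_left (key k x hx) (by positivity)

theorem Sg_congr_on {st : κ → X → X} {S : Set X} (hS : Clo st S) {f g : X → ℝ}
    (h : ∀ x ∈ S, f x = g x) (t : ℝ) (ht : 0 ≤ t) :
    ∀ x ∈ S, Sg st t f x = Sg st t g x := fun x hx =>
  le_antisymm (Sg_mono hS (fun y hy => (h y hy).le) t ht x hx)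
    (Sg_mono hS (fun y hy => (h y hy).ge) t ht x hx)

theorem Clo_univ (st : κ → X → X) : Clo st Set.univ := fun _ _ _ => trivial

theorem Sg_const (st : κ → X → X) (t : ℝ) (ht : 0 ≤ t) (c : ℝ) (x : X) :
    Sg st t (fun _ => c) x = c := by
  refine le_antisymm ?_ ?_
  · have := Sg_le_of_gen_le (Clo_univ st) (fun _ => c) 0 (fun y _ => by simp [gen]) t ht x trivial
    simpa using this
  · have := Sg_le_of_gen_le (Clo_univ st) (fun _ => -c) 0 (fun y _ => by simp [gen]) t ht x trivial
    have h2 : Sg st t (fun _ => -c) x = - Sg st t (fun _ => c) x := by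
      have := Sg_mul_apply st t (-1) (fun _ => c) x
      simpa using this
    rw [h2] at this
    simp at this
    exact this

theorem Sg_nonneg {st : κ → X → X} {S : Set X} (hS : Clo st S) {f : X → ℝ}
    (h : ∀ x ∈ S, 0 ≤ f x) (t : ℝ) (ht : 0 ≤ t) :
    ∀ x ∈ S, 0 ≤ Sg st t f x := by
  intro x hx
  have := Sg_mono hS (f := fun _ => (0 : ℝ)) h t ht x hx
  rwa [Sg_const st t ht] at this

theorem Sg_le_const {st : κ → X → X} {S : Set X} (hS : Clo st S) {f : X → ℝ} {c : ℝ}
    (h : ∀ x ∈ S, f x ≤ c) (t : ℝ) (ht : 0 ≤ t) :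
    ∀ x ∈ S, Sg st t f x ≤ c := by
  intro x hx
  have := Sg_mono hS (g := fun _ => c) h t ht x hx
  rwa [Sg_const st t ht] at this

/-- Gronwall with an additive constant -/
theorem Sg_le_of_gen_le_add {st : κ → X → X} {S : Set X} (hS : Clo st S) (h : X → ℝ) (r b : ℝ)
    (hr : 0 < r) (hb : 0 ≤ b)
    (hh : ∀ x ∈ S, gen st h x ≤ -r * h x + b) (t : ℝ) (ht : 0 ≤ t) :
    ∀ x ∈ S, Sg st t h x ≤ Real.exp (-r * t) * h x + b / r := by
  intro x hx
  have h1 := Sg_le_of_gen_le hS (fun z => h z - b / r) (-r) (fun y hy => by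
    have e : gen st (fun z => h z - b / r) y = gen st h y := by
      unfold gen
      congr 1
      refine Finset.sum_congr rfl fun l _ => ?_
      ring
    rw [e]
    have := hh y hy
    have e2 : -r * (h y - b / r) = -r * h y + b := by
      field_simp
      ring
    rw [e2]; exact this) t ht x hx
  have e3 : Sg st t (fun z => h z - b / r) x = Sg st t h x - b / r := by
    rw [Sg_sub_apply st t h (fun _ => b / r), Sg_const st t ht]
  rw [e3] at h1
  have h2 : 0 ≤ Real.exp (-r * t) * (b / r) := by positivity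
  nlinarith [h1, h2]

end Semi

end Pool.Agent.Helper8.UT
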