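import Pool.Agent.Helper8.UT.Aug

/-!
The two main estimates: the probability of a given middle block on the good event, and the
probability that the lower rows of the north-east block are dependent although its rank is large.
-/

set_option autoImplicit false
set_option linter.unusedSectionVars false

namespace Pool.Agent.Helper8.UT

open Finset Matrix

variable {N : ℕ}

/-- the set of row `r` is trivial -/
def Trv (b : ℕ) (r : ℕ) (s : AS N) : Prop :=
  ∀ h : r < N, ∀ ψ ∈ s.2 ⟨r, h⟩, suppIn ψ (r + 1) b → ψ = 0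

/-- rows from `r` to `b` match the target -/
def MatT (T : ℕ → VV N) (b r : ℕ) (s : AS N) : Prop :=
  ∀ m, r ≤ m → m < b → ∀ j : Fin N, m < j.val → j.val < b → rowN s.1 m j = T m j

open Classical in
theorem V_step {t : ℝ} (ht : 0 ≤ t) (T : ℕ → VV N) (b : ℕ) (hb : b ≤ N) :
    ∀ k, k ≤ b → EA N t (fun s => if MatT T b (b - k) s ∧ Trv b (b - k) s then (1 : ℝ) else 0) ≤
      (1 / 2 : ℝ) ^ (∑ i ∈ Finset.range k, i) := by
  intro k
  induction k with
  | zero =>
    intro _
    rw [Finset.range_zero, Finset.sum_empty, pow_zero]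
    refine EA_le_const ht fun s => ?_
    split_ifs <;> norm_num
  | succ k ih =>
    intro hk
    have ih' := ih (by omega)
    obtain ⟨r, hr⟩ : ∃ r, r = b - (k + 1) := ⟨_, rfl⟩
    have hrN : r < N := by omega
    have hr1 : b - k = r + 1 := by omega
    rw [← hr]
    rw [hr1] at ih'
    set G : AS N → ℝ := fun s => if MatT T b (r + 1) s ∧ Trv b r s then 1 else 0 with hG
    have h1 : EA N t (fun s => if MatT T b r s ∧ Trv b r s then (1 : ℝ) else 0) ≤
        EA N t (fun s => if (∀ ψ ∈ SI N (r + 1) b, (rowN s.1 r + T r) ⬝ᵥ ψ = 0) then G s else 0) := by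
      refine EA_mono ht fun s => ?_
      by_cases h : MatT T b r s ∧ Trv b r s
      · have h2 : ∀ ψ ∈ SI N (r + 1) b, (rowN s.1 r + T r) ⬝ᵥ ψ = 0 := by
          intro ψ hψ
          rw [mem_SI] at hψ
          unfold dotProduct
          refine Finset.sum_eq_zero fun j _ => ?_
          by_cases hj : ψ j = 0
          · rw [hj, mul_zero]
          · have h3 := hψ j hj
            rw [Pi.add_apply, h.1 r le_rfl (by omega) j (by omega) h3.2, CharTwo.add_self_eq_zero,
              zero_mul]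
        have h4 : MatT T b (r + 1) s ∧ Trv b r s :=
          ⟨fun m hm => h.1 m (by omega), h.2⟩
        rw [if_pos h, if_pos h2, hG]
        beta_reduce
        rw [if_pos h4]
      · rw [if_neg h]
        split_ifs
        · rw [hG]
          beta_reduce
          split_ifs <;> norm_num
        · exact le_rfl
    have h2 := EA_fourier ht (⟨r, hrN⟩ : Fin N) (fun _ => SI N (r + 1) b) (fun _ _ _ => rfl)
      (fun _ => SI_sub0 _ _) (fun s ψ hψ => by
        rw [mem_SI] at hψ
        by_contra hc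
        have := (hψ _ hc).1
        simp only at this
        omega) (T r) G (by
        intro s s' hs
        rw [hG]
        beta_reduce
        have e1 : MatT T b (r + 1) s ↔ MatT T b (r + 1) s' := by
          unfold MatT
          constructor
          · intro h m hm hmb j hj hjb
            rw [← hs.1 m (by simp only; omega)]
            exact h m hm hmb j hj hjb
          · intro h m hm hmb j hj hjb
            rw [hs.1 m (by simp only; omega)]
            exact h m hm hmb j hj hjb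
        have e2 : Trv b r s ↔ Trv b r s' := by
          unfold Trv
          rw [forall_congr' fun h => by rw [hs.2 ⟨r, h⟩ le_rfl]]
        simp only [e1, e2]) (by
        intro s
        rw [hG]
        beta_reduce
        split_ifs <;> norm_num)
    refine h1.trans (h2.trans ?_)
    have h3 : EA N t (fun s => ((SI N (r + 1) b ∩ s.2 ⟨r, hrN⟩).card : ℝ) /
        ((SI N (r + 1) b).card : ℝ) * G s) ≤
        EA N t (fun s => (1 / 2 : ℝ) ^ k *
          (if MatT T b (r + 1) s ∧ Trv b (r + 1) s then (1 : ℝ) else 0)) := by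
      refine EA_mono_Inv ht fun s hs => ?_
      have hc : (SI N (r + 1) b).card = 2 ^ k := by
        rw [card_SI (by omega) hb]
        congr 1
        omega
      rw [hc, hG]
      beta_reduce
      by_cases h : MatT T b (r + 1) s ∧ Trv b r s
      · have h5 : Trv b (r + 1) s := by
          intro h6 ψ hψ hsupp
          have h7 := (hs.2 ⟨r + 1, h6⟩ ψ hψ (fun j hj => by
            rw [Fin.lt_def]
            have := (hsupp j hj).1
            simp only
            omega) ⟨r, hrN⟩ (by rw [Fin.le_def]; simp)).2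
          exact h.2 hrN ψ h7 (suppIn_mono hsupp (by omega) le_rfl)
        rw [if_pos h, if_pos ⟨h.1, h5⟩]
        have h8 : (SI N (r + 1) b ∩ s.2 ⟨r, hrN⟩).card ≤ 1 := by
          refine Finset.card_le_one.2 fun x hx y hy => ?_
          rw [Finset.mem_inter, mem_SI] at hx hy
          rw [h.2 hrN x hx.2 hx.1, h.2 hrN y hy.2 hy.1]
        have h9 : ((SI N (r + 1) b ∩ s.2 ⟨r, hrN⟩).card : ℝ) ≤ 1 := by exact_mod_cast h8
        have h10 : (1 / 2 : ℝ) ^ k = 1 / (2 : ℝ) ^ k := by
          rw [one_div, inv_pow, one_div]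
        rw [h10]
        push_cast
        rw [mul_one, mul_one]
        gcongr
      · rw [if_neg h, mul_zero]
        split_ifs
        · positivity
        · rw [mul_zero]
    refine h3.trans ?_
    rw [EA_mul, Finset.sum_range_succ, pow_add, mul_comm]
    exact mul_le_mul_of_nonneg_right ih' (by positivity)

/-- the good event: the columns after `s` (up to `b`) of the rows up to `s` are independent -/
def Good (s b : ℕ) (A : MM N) : Prop :=
  ∀ ψ : VV N, suppIn ψ (s + 1) b → (∀ m, m ≤ s → rowN A m ⬝ᵥ ψ = 0) → ψ = 0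

open Classical in
theorem V_lemma {t : ℝ} (ht : 0 ≤ t) (s n : ℕ) (h : s + n ≤ N) (T : MM n) :
    EE N t (fun A => if mid s n h A = T ∧ Good s (s + n) A then (1 : ℝ) else 0) ≤
      (1 / 2 : ℝ) ^ (n * (n - 1) / 2) := by
  set T' : ℕ → VV N := fun m j =>
    if hm : (s ≤ m ∧ m < s + n) ∧ (s ≤ j.val ∧ j.val < s + n) then
      T ⟨m - s, by omega⟩ ⟨j.val - s, by omega⟩ else 0 with hT'
  have h1 := V_step ht T' (s + n) h n (by omega)
  rw [Finset.sum_range_id] at h1
  refine le_trans ?_ h1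
  rw [← EA_proj]
  refine EA_mono_Inv ht fun st hst => ?_
  have hsn : s + n - n = s := by omega
  rw [hsn]
  by_cases hc : mid s n h st.1 = T ∧ Good s (s + n) st.1
  · have h2 : MatT T' (s + n) s st := by
      intro m hm hmb j hj hjb
      have e1 : T' m j = mid s n h st.1 ⟨m - s, by omega⟩ ⟨j.val - s, by omega⟩ := by
        rw [hc.1, hT']
        beta_reduce
        rw [dif_pos ⟨⟨hm, hmb⟩, ⟨by omega, hjb⟩⟩]
      rw [e1]
      unfold mid rowN
      rw [dif_pos (show m < N by omega)]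
      have e2 : (⟨m, by omega⟩ : Fin N) = ⟨s + (m - s), by omega⟩ := by
        apply Fin.ext
        change m = s + (m - s)
        omega
      have e3 : j = ⟨s + (j.val - s), by omega⟩ := by
        apply Fin.ext
        change j.val = s + (j.val - s)
        omega
      exact congrArg₂ (fun x y => st.1 x y) e2 e3
    have h3 : Trv (s + n) s st := by
      intro hs ψ hψ hsupp
      refine hc.2 ψ hsupp fun m hm => ?_
      have := (hst.2 ⟨s, hs⟩ ψ hψ (fun j hj => by
        rw [Fin.lt_def]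
        have := (hsupp j hj).1
        simp only
        omega) ⟨m, by omega⟩ (by rw [Fin.le_def]; exact hm)).1
      exact this
    rw [if_pos hc, if_pos ⟨h2, h3⟩]
  · rw [if_neg hc]
    split_ifs <;> norm_num

open Classical in
/-- vectors orthogonal to the rows between `r` and `a` -/
noncomputable def TZ (a r : ℕ) (A : MM N) : Finset (VV N) :=
  (SI N a N).filter fun ψ => ∀ m, r < m → m < a → rowN A m ⬝ᵥ ψ = 0

theorem mem_TZ {a r : ℕ} {A : MM N} {ψ : VV N} :
    ψ ∈ TZ a r A ↔ suppIn ψ a N ∧ ∀ m, r < m → m < a → rowN A m ⬝ᵥ ψ = 0 := by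
  unfold TZ
  simp only [Finset.mem_filter, mem_SI]

theorem TZ_sub0 (a r : ℕ) (A : MM N) : Sub0 (TZ a r A) := by
  refine ⟨?_, ?_⟩
  · rw [mem_TZ]
    refine ⟨mem_SI.1 (SI_sub0 a N).1, fun m _ _ => dotProduct_zero _⟩
  · intro x hx y hy
    rw [mem_TZ] at *
    refine ⟨mem_SI.1 ((SI_sub0 a N).2 x (mem_SI.2 hx.1) y (mem_SI.2 hy.1)), fun m h1 h2 => ?_⟩
    rw [dotProduct_add, hx.2 m h1 h2, hy.2 m h1 h2, add_zero]

theorem TZ_card {a r : ℕ} (hra : r < a) (ha : a ≤ N) (A : MM N) :
    2 ^ (N - a) ≤ (TZ a r A).card * 2 ^ (a - 1 - r) := by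
  classical
  rw [← card_SI ha le_rfl]
  set f : VV N → (Fin (a - 1 - r) → ZMod 2) := fun ψ i => rowN A (r + 1 + i.val) ⬝ᵥ ψ with hf
  have h1 := count_le f (fun x y => by
    funext i
    rw [hf]
    exact dotProduct_add _ _ _) (SI N a N) (SI_sub0 a N)
  refine h1.trans (Nat.mul_le_mul ?_ ?_)
  · refine Finset.card_le_card fun ψ hψ => ?_
    rw [Finset.mem_filter] at hψ
    rw [mem_TZ]
    refine ⟨mem_SI.1 hψ.1, fun m hm1 hm2 => ?_⟩
    have h2 := congrFun hψ.2 ⟨m - (r + 1), by omega⟩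
    rw [hf] at h2
    beta_reduce at h2
    have h3 : r + 1 + (m - (r + 1)) = m := by omega
    simp only [h3] at h2
    exact h2
  · refine (Finset.card_le_univ _).trans ?_
    rw [Fintype.card_fun, ZMod.card, Fintype.card_fin]

open Classical in
theorem Z_step {t : ℝ} (ht : 0 ≤ t) {a r : ℕ} (hra : r < a) (ha : a ≤ N) (κ : ℝ) (hκ : 0 ≤ κ) :
    EE N t (fun A => if (∀ ψ ∈ TZ a r A, rowN A r ⬝ᵥ ψ = 0) ∧ ((KerB a N A).card : ℝ) ≤ κ
      then (1 : ℝ) else 0) ≤ κ * 2 ^ (a - 1 - r) / 2 ^ (N - a) := by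
  have hrN : r < N := by omega
  set G : AS N → ℝ := fun s => if ((TZ a r s.1 ∩ s.2 ⟨r, hrN⟩).card : ℝ) ≤ κ then 1 else 0 with hG
  have hdep : ∀ s s' : AS N, Rel r s s' → TZ a r s.1 = TZ a r s'.1 := by
    intro s s' hs
    ext ψ
    rw [mem_TZ, mem_TZ]
    constructor
    · rintro ⟨h1, h2⟩
      exact ⟨h1, fun m hm1 hm2 => by rw [← hs.1 m hm1]; exact h2 m hm1 hm2⟩
    · rintro ⟨h1, h2⟩
      exact ⟨h1, fun m hm1 hm2 => by rw [hs.1 m hm1]; exact h2 m hm1 hm2⟩
  have h1 := EA_fourier ht (⟨r, hrN⟩ : Fin N) (fun s => TZ a r s.1) hdep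
    (fun s => TZ_sub0 a r s.1) (fun s ψ hψ => by
      rw [mem_TZ] at hψ
      by_contra hc
      have := (hψ.1 _ hc).1
      simp only at this
      omega) 0 G (by
      intro s s' hs
      rw [hG]
      beta_reduce
      rw [hdep s s' hs, hs.2 ⟨r, hrN⟩ le_rfl]) (by
      intro s
      rw [hG]
      beta_reduce
      split_ifs <;> norm_num)
  rw [← EA_proj]
  have h2 : EA N t (fun s => if (∀ ψ ∈ TZ a r s.1, rowN s.1 r ⬝ᵥ ψ = 0) ∧
      ((KerB a N s.1).card : ℝ) ≤ κ then (1 : ℝ) else 0) ≤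
      EA N t (fun s => if (∀ ψ ∈ TZ a r s.1, (rowN s.1 (⟨r, hrN⟩ : Fin N).val + 0) ⬝ᵥ ψ = 0)
        then G s else 0) := by
    refine EA_mono_Inv ht fun s hs => ?_
    by_cases h : (∀ ψ ∈ TZ a r s.1, rowN s.1 r ⬝ᵥ ψ = 0) ∧ ((KerB a N s.1).card : ℝ) ≤ κ
    · rw [if_pos h, if_pos (fun ψ hψ => by rw [add_zero]; exact h.1 ψ hψ), hG]
      beta_reduce
      rw [if_pos]
      refine le_trans ?_ h.2
      have : TZ a r s.1 ∩ s.2 ⟨r, hrN⟩ ⊆ KerB a N s.1 := by
        intro ψ hψ
        rw [Finset.mem_inter, mem_TZ] at hψ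
        unfold KerB
        rw [Finset.mem_filter, mem_SI]
        refine ⟨hψ.1.1, fun m hm => ?_⟩
        by_cases hmr : m ≤ r
        · exact (hs.2 ⟨r, hrN⟩ ψ hψ.2 (fun j hj => by
            rw [Fin.lt_def]
            have := (hψ.1.1 j hj).1
            simp only
            omega) ⟨m, by omega⟩ (by rw [Fin.le_def]; exact hmr)).1
        · exact hψ.1.2 m (by omega) hm
      exact_mod_cast Finset.card_le_card this
    · rw [if_neg h]
      split_ifs
      · rw [hG]
        beta_reduce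
        split_ifs <;> norm_num
      · exact le_rfl
  refine h2.trans (h1.trans ?_)
  refine EA_le_const ht fun s => ?_
  rw [hG]
  beta_reduce
  have h3 := TZ_card hra ha s.1
  have h4 : (2 : ℝ) ^ (N - a) ≤ ((TZ a r s.1).card : ℝ) * 2 ^ (a - 1 - r) := by exact_mod_cast h3
  have h5 : (0 : ℝ) < (TZ a r s.1).card := by
    have : 0 < (TZ a r s.1).card := Finset.card_pos.2 ⟨0, (TZ_sub0 a r s.1).1⟩
    exact_mod_cast this
  split_ifs with h
  · rw [mul_one, div_le_div_iff₀ h5 (by positivity)]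
    calc ((TZ a r s.1 ∩ s.2 ⟨r, hrN⟩).card : ℝ) * 2 ^ (N - a)
        ≤ κ * (((TZ a r s.1).card : ℝ) * 2 ^ (a - 1 - r)) :=
          mul_le_mul h h4 (by positivity) hκ
      _ = κ * 2 ^ (a - 1 - r) * ((TZ a r s.1).card : ℝ) := by ring
  · rw [mul_zero]
    positivity

/-- the rows `[a-x,a)` of the block with cut `a` are dependent -/
def DepE (a x : ℕ) (A : MM N) : Prop :=
  ∃ u : VV N, suppIn u (a - x) a ∧ u ≠ 0 ∧ ∀ j : Fin N, a ≤ j.val → (u ᵥ* A) j = 0

theorem DepE_D {a x : ℕ} {A : MM N} (h : DepE a x A) :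
    ∃ r, a - x ≤ r ∧ r < a ∧ ∀ ψ ∈ TZ a r A, rowN A r ⬝ᵥ ψ = 0 := by
  classical
  obtain ⟨u, hu, hu0, hz⟩ := h
  have hne : (Finset.univ.filter fun i : Fin N => u i ≠ 0).Nonempty := by
    by_contra hc
    rw [Finset.not_nonempty_iff_eq_empty] at hc
    apply hu0
    funext i
    by_contra hi
    have : i ∈ (Finset.univ.filter fun i : Fin N => u i ≠ 0) :=
      Finset.mem_filter.2 ⟨Finset.mem_univ _, hi⟩
    rw [hc] at this
    exact absurd this (Finset.notMem_empty _)
  obtain ⟨r, hr, hmin⟩ := Finset.exists_min_image _ (fun i : Fin N => i.val) hne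
  rw [Finset.mem_filter] at hr
  have hr1 := hu r hr.2
  refine ⟨r.val, hr1.1, hr1.2, fun ψ hψ => ?_⟩
  rw [mem_TZ] at hψ
  have h1 : (u ᵥ* A) ⬝ᵥ ψ = 0 := by
    unfold dotProduct
    refine Finset.sum_eq_zero fun j _ => ?_
    by_cases hj : ψ j = 0
    · rw [hj, mul_zero]
    · rw [hz j (hψ.1 j hj).1, zero_mul]
  rw [← Matrix.dotProduct_mulVec] at h1
  have h2 : u ⬝ᵥ (A *ᵥ ψ) = (A *ᵥ ψ) r := by
    unfold dotProduct
    rw [Finset.sum_eq_single r]
    · rw [zmod2_ne _ hr.2, one_mul]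
    · intro i _ hi
      by_cases hui : u i = 0
      · rw [hui, zero_mul]
      · have h3 : r.val ≤ i.val := hmin i (by simp [hui])
        have h4 : r.val < i.val := lt_of_le_of_ne h3 fun h => hi (Fin.ext h.symm)
        have h5 := hψ.2 i.val h4 (hu i hui).2
        rw [rowN_fin] at h5
        have : (A *ᵥ ψ) i = 0 := h5
        rw [this, mul_zero]
    · intro h; exact absurd (Finset.mem_univ r) h
  rw [h2] at h1
  rw [rowN_fin]
  exact h1

theorem EE_union {t : ℝ} (ht : 0 ≤ t) {α : Type*} (S : Finset α) (P : MM N → Prop)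
    (Q : α → MM N → Prop) [DecidablePred P] [∀ a, DecidablePred (Q a)] (h : ∀ A ∈ UTS N, P A → ∃ a ∈ S, Q a A) :
    EE N t (fun A => if P A then (1 : ℝ) else 0) ≤
      ∑ a ∈ S, EE N t (fun A => if Q a A then (1 : ℝ) else 0) := by
  have : ∑ a ∈ S, EE N t (fun A => if Q a A then (1 : ℝ) else 0) =
      EE N t (fun A => ∑ a ∈ S, if Q a A then (1 : ℝ) else 0) := by
    unfold EE
    rw [Sg_sum_apply]
  rw [this]
  refine EE_mono ht fun A hA => ?_
  by_cases hP : P A
  · obtain ⟨a, ha, hQ⟩ := h A hA hP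
    rw [if_pos hP]
    have := Finset.single_le_sum (f := fun a => if Q a A then (1 : ℝ) else 0)
      (fun i _ => by split_ifs <;> norm_num) ha
    simp only [if_pos hQ] at this
    exact this
  · rw [if_neg hP]
    exact Finset.sum_nonneg fun i _ => by split_ifs <;> norm_num

open Classical in
theorem Z_lemma {t : ℝ} (ht : 0 ≤ t) {a x q : ℕ} (hx : x ≤ a) (ha : a ≤ N) :
    EE N t (fun A => if DepE a x A then (1 : ℝ) else 0) ≤
      EE N t (fun A => if rk a A < q then (1 : ℝ) else 0) + 2 ^ x / 2 ^ q := by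
  have h1 : EE N t (fun A => if DepE a x A then (1 : ℝ) else 0) ≤
      EE N t (fun A => if rk a A < q then (1 : ℝ) else 0) +
      EE N t (fun A => if DepE a x A ∧ q ≤ rk a A then (1 : ℝ) else 0) := by
    have e : ∀ f g : MM N → ℝ, EE N t f + EE N t g = EE N t (fun A => f A + g A) := by
      intro f g
      unfold EE
      rw [Sg_add_apply]
    rw [e]
    refine EE_mono ht fun A _ => ?_
    by_cases hD : DepE a x A <;> by_cases hq : rk a A < q
    · simp [hD, hq, not_le.2 hq]
    · simp [hD, hq, not_lt.1 hq]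
    · simp [hD, hq]
    · simp [hD, hq]
  refine h1.trans (add_le_add le_rfl ?_)
  have h2 := EE_union ht (Finset.range x) (fun A : MM N => DepE a x A ∧ q ≤ rk a A)
    (fun i A => (∀ ψ ∈ TZ a (a - 1 - i) A, rowN A (a - 1 - i) ⬝ᵥ ψ = 0) ∧
      ((KerB a N A).card : ℝ) ≤ 2 ^ (N - a) / 2 ^ q) (by
    rintro A _ ⟨hD, hq⟩
    obtain ⟨r, hr1, hr2, hr3⟩ := DepE_D hD
    refine ⟨a - 1 - r, Finset.mem_range.2 (by omega), ?_, ?_⟩
    · have : a - 1 - (a - 1 - r) = r := by omega
      rw [this]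
      exact hr3
    · have h3 := KerB_upper ha A
      have h4 : (KerB a N A).card * 2 ^ q ≤ 2 ^ (N - a) :=
        (Nat.mul_le_mul le_rfl (Nat.pow_le_pow_right (by norm_num) hq)).trans h3
      rw [le_div_iff₀ (by positivity)]
      exact_mod_cast h4)
  refine h2.trans ?_
  have h3 : ∀ i ∈ Finset.range x, EE N t (fun A =>
      if (∀ ψ ∈ TZ a (a - 1 - i) A, rowN A (a - 1 - i) ⬝ᵥ ψ = 0) ∧
      ((KerB a N A).card : ℝ) ≤ 2 ^ (N - a) / 2 ^ q then (1 : ℝ) else 0) ≤ 2 ^ i / 2 ^ q := by
    intro i hi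
    rw [Finset.mem_range] at hi
    refine (Z_step ht (show a - 1 - i < a by omega) ha (2 ^ (N - a) / 2 ^ q) (by positivity)).trans
      (le_of_eq ?_)
    have : a - 1 - (a - 1 - i) = i := by omega
    rw [this]
    have h5 : (2 : ℝ) ^ (N - a) ≠ 0 := by positivity
    field_simp
  refine (Finset.sum_le_sum h3).trans ?_
  rw [← Finset.sum_div]
  have h4 : ∑ i ∈ Finset.range x, (2 : ℝ) ^ i ≤ 2 ^ x := by
    have := geom_sum_eq (show (2 : ℝ) ≠ 1 by norm_num) x
    rw [this]
    have : (2 : ℝ) ^ x - 1 ≤ 2 ^ x := by linarith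
    norm_num
  gcongr

theorem Good_flip {a n : ℕ} (hn : 1 ≤ n) (ha : a + 1 ≤ N) (A : MM N)
    (h : ¬ Good (N - a - 1) (N - a - 1 + n) (flip A)) : DepE a (n - 1) A := by
  unfold Good at h
  push Not at h
  obtain ⟨ψ, h1, h2, h3⟩ := h
  refine ⟨fun i => ψ i.rev, ?_, ?_, ?_⟩
  · intro j hj
    have := h1 _ hj
    rw [Fin.val_rev] at this
    have := j.isLt
    omega
  · intro h
    apply h3
    funext i
    have := congrFun h i.rev
    simpa using this
  · intro j hj
    have h4 := h2 j.rev.val (by rw [Fin.val_rev]; omega)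
    rw [rowN_fin] at h4
    rw [← h4]
    unfold Matrix.vecMul dotProduct
    rw [← Equiv.sum_comp Fin.revPerm]
    refine Finset.sum_congr rfl fun i _ => ?_
    simp only [Fin.revPerm_apply, Fin.rev_rev]
    unfold flip
    rw [Fin.rev_rev, mul_comm]

end Pool.Agent.Helper8.UT
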